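import Pool.Agent.ThreeDec.Defs

set_option autoImplicit false

/-! Boundary counts (parity of a cut, bridgeless and connected lower bounds). -/

namespace Pool.Agent.ThreeDec

open Finset

universe u
variable {V : Type u} [Fintype V]

omit [Fintype V] in
lemma bd_aux_adj {W : SimpleGraph V} {x a y : V} (h : x = a) (hxy : W.Adj x y) :
    W.Adj a y := by
  subst h
  exact hxy

/-- the boundary is the number of pairs (inside, outside) that are adjacent -/
lemma bd_pos_of_adj {W : SimpleGraph V} {Q : Finset V} {a b : V} (ha : a ∈ Q) (hb : b ∉ Q)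
    (hab : W.Adj a b) : 0 < bd W Q := by
  classical
  unfold bd
  refine Finset.sum_pos' (fun _ _ => Nat.zero_le _) ⟨a, ha, ?_⟩
  exact Finset.card_pos.mpr ⟨b, by
    rw [mem_filter, mem_nb]
    exact ⟨hab, hb⟩⟩

/-- the number of ordered adjacent pairs inside `Q` is even -/
lemma bd_inner_even (W : SimpleGraph V) (Q : Finset V) [DecidableEq V] :
    Even (∑ v ∈ Q, ((nb W v).filter (fun w => w ∈ Q)).card) := by
  classical
  set P : Finset (V × V) := (Q ×ˢ Q).filter (fun p => W.Adj p.1 p.2) with hP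
  have h1 : ∑ v ∈ Q, ((nb W v).filter (fun w => w ∈ Q)).card = P.card := by
    rw [hP, Finset.card_filter, Finset.sum_product]
    refine Finset.sum_congr rfl (fun v _ => ?_)
    rw [← Finset.card_filter]
    congr 1
    ext w
    simp only [mem_filter, mem_nb]
    tauto
  rw [h1]
  have h2 : (∑ _p ∈ P, (1 : ZMod 2)) = 0 := by
    refine Finset.sum_involution (fun p _ => p.swap) ?_ ?_ ?_ ?_
    · intro a _
      decide
    · intro a ha _ h
      rw [hP, mem_filter] at ha
      have h3 : a.2 = a.1 := congrArg Prod.fst h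
      exact W.irrefl (v := a.1) (by simpa [h3] using ha.2)
    · intro a ha
      rw [hP, mem_filter, mem_product] at ha ⊢
      exact ⟨⟨ha.1.2, ha.1.1⟩, ha.2.symm⟩
    · intro a _
      exact Prod.swap_swap a
  rw [Finset.sum_const, nsmul_eq_mul, mul_one] at h2
  exact (ZMod.natCast_eq_zero_iff_even).mp h2

lemma bd_parity (W : SimpleGraph V) (Q : Finset V) : (∑ v ∈ Q, dg W v) % 2 = bd W Q % 2 := by
  classical
  have h1 : ∑ v ∈ Q, dg W v
      = ∑ v ∈ Q, ((nb W v).filter (fun w => w ∈ Q)).card + bd W Q := by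
    unfold bd dg
    rw [← Finset.sum_add_distrib]
    refine Finset.sum_congr rfl (fun v _ => ?_)
    rw [Finset.card_filter_add_card_filter_not]
  rw [h1]
  obtain ⟨k, hk⟩ := bd_inner_even W Q
  rw [hk]
  omega

lemma bd_ne_one {W : SimpleGraph V} (hb : Bridgeless W) (Q : Finset V) : bd W Q ≠ 1 := by
  classical
  intro h
  -- some leaving edge
  have hpos : ∃ v ∈ Q, 0 < ((nb W v).filter (fun w => w ∉ Q)).card := by
    by_contra hno
    push Not at hno
    have h0 : bd W Q = 0 := by
      unfold bd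
      exact Finset.sum_eq_zero (fun v hv => Nat.le_zero.mp (hno v hv))
    omega
  obtain ⟨a, haQ, ha⟩ := hpos
  obtain ⟨b, hbm⟩ := Finset.card_pos.mp ha
  rw [mem_filter, mem_nb] at hbm
  obtain ⟨hab, hbQ⟩ := hbm
  obtain ⟨p⟩ := hb a b hab
  obtain ⟨d, -, hd1, hd2⟩ := p.exists_boundary_dart (Q : Set V) (by exact_mod_cast haQ)
    (by exact_mod_cast hbQ)
  have hd1' : d.fst ∈ Q := by exact_mod_cast hd1
  have hd2' : d.snd ∉ Q := by exact_mod_cast hd2
  have hadj := d.adj
  rw [SimpleGraph.sdiff_adj, SimpleGraph.fromEdgeSet_adj] at hadj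
  obtain ⟨hW, hne⟩ := hadj
  -- the two pairs are different
  have hdiff : ¬ (d.fst = a ∧ d.snd = b) := by
    rintro ⟨h1, h2⟩
    apply hne
    rw [h1, h2]
    exact ⟨rfl, hab.ne⟩
  have hsum : bd W Q = ∑ v ∈ Q, ((nb W v).filter (fun w => w ∉ Q)).card := rfl
  by_cases hfa : d.fst = a
  · -- two edges at `a`
    have h2 : 2 ≤ ((nb W a).filter (fun w => w ∉ Q)).card := by
      have hsub : ({b, d.snd} : Finset V) ⊆ (nb W a).filter (fun w => w ∉ Q) := by
        intro x hx
        rw [mem_insert, mem_singleton] at hx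
        rw [mem_filter, mem_nb]
        rcases hx with rfl | rfl
        · exact ⟨hab, hbQ⟩
        · exact ⟨bd_aux_adj hfa hW, hd2'⟩
      have hc : ({b, d.snd} : Finset V).card = 2 := by
        rw [Finset.card_pair]
        exact fun hh => hdiff ⟨hfa, hh.symm⟩
      calc 2 = ({b, d.snd} : Finset V).card := hc.symm
        _ ≤ _ := Finset.card_le_card hsub
    have h3 : ((nb W a).filter (fun w => w ∉ Q)).card ≤ bd W Q := by
      rw [hsum]
      exact Finset.single_le_sum (f := fun v => ((nb W v).filter (fun w => w ∉ Q)).card)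
        (fun _ _ => Nat.zero_le _) haQ
    omega
  · have h1 : 0 < ((nb W d.fst).filter (fun w => w ∉ Q)).card :=
      Finset.card_pos.mpr ⟨d.snd, by rw [mem_filter, mem_nb]; exact ⟨hW, hd2'⟩⟩
    have h3 : ((nb W a).filter (fun w => w ∉ Q)).card
        + ((nb W d.fst).filter (fun w => w ∉ Q)).card ≤ bd W Q := by
      rw [hsum]
      have hsub : ({a, d.fst} : Finset V) ⊆ Q := by
        intro x hx
        rw [mem_insert, mem_singleton] at hx
        rcases hx with rfl | rfl
        · exact haQ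
        · exact hd1'
      calc ((nb W a).filter (fun w => w ∉ Q)).card + ((nb W d.fst).filter (fun w => w ∉ Q)).card
          = ∑ v ∈ ({a, d.fst} : Finset V), ((nb W v).filter (fun w => w ∉ Q)).card := by
            rw [Finset.sum_pair (fun hh => hfa hh.symm)]
        _ ≤ _ := Finset.sum_le_sum_of_subset hsub
    omega

lemma bd_eq_zero {W : SimpleGraph V} (hc : W.Connected) (Q : Finset V) (h : bd W Q = 0) :
    Q = ∅ ∨ Q = univ := by
  classical
  by_contra hno
  push Not at hno
  obtain ⟨h1, h2⟩ := hno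
  obtain ⟨a, ha⟩ := Finset.nonempty_iff_ne_empty.mpr (by
    simpa [Finset.nonempty_iff_ne_empty] using h1)
  have h3 : ∃ b, b ∉ Q := by
    by_contra hall
    push Not at hall
    exact h2 (Finset.eq_univ_iff_forall.mpr hall)
  obtain ⟨b, hb⟩ := h3
  obtain ⟨p⟩ := hc.preconnected a b
  obtain ⟨d, -, hd1, hd2⟩ := p.exists_boundary_dart (Q : Set V) (by exact_mod_cast ha)
    (by exact_mod_cast hb)
  have := bd_pos_of_adj (W := W) (Q := Q) (by exact_mod_cast hd1) (by exact_mod_cast hd2) d.adj
  omega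

/-- odd set of rigid vertices -/
lemma bd_three {W : SimpleGraph V} (_hc : W.Connected) (hb : Bridgeless W) (Q : Finset V)
    (hQ : Odd Q.card) (hr : ∀ v ∈ Q, dg W v = 3) (_hne : Q ≠ univ) : 3 ≤ bd W Q := by
  have h1 := bd_parity W Q
  have h2 : ∑ v ∈ Q, dg W v = Q.card * 3 := by
    rw [Finset.sum_congr rfl hr, Finset.sum_const, smul_eq_mul]
  rw [h2] at h1
  have h3 := bd_ne_one hb Q
  obtain ⟨k, hk⟩ := hQ
  rw [hk] at h1
  omega

/-- odd set with all vertices rigid except possibly `s0`, of degree 2 -/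
lemma bd_two {W : SimpleGraph V} (hc : W.Connected) (hb : Bridgeless W) (Q : Finset V) (s0 : V)
    (hQ : Odd Q.card) (hs : dg W s0 = 2) (hr : ∀ v ∈ Q, v ≠ s0 → dg W v = 3) (hne : Q ≠ univ) :
    2 ≤ bd W Q := by
  classical
  by_cases hs0 : s0 ∈ Q
  · have h1 := bd_parity W Q
    have h2 : ∑ v ∈ Q, dg W v = (Q.card - 1) * 3 + 2 := by
      rw [← Finset.sum_erase_add Q _ hs0, hs, Finset.sum_congr rfl
        (fun v hv => hr v (Finset.mem_of_mem_erase hv) (Finset.ne_of_mem_erase hv)),
        Finset.sum_const, smul_eq_mul, Finset.card_erase_of_mem hs0]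
    rw [h2] at h1
    have h3 := bd_ne_one hb Q
    have h4 : bd W Q ≠ 0 := by
      intro h0
      rcases bd_eq_zero hc Q h0 with h | h
      · rw [h] at hs0
        exact absurd hs0 (Finset.notMem_empty _)
      · exact hne h
    obtain ⟨k, hk⟩ := hQ
    rw [hk] at h1
    omega
  · have := bd_three hc hb Q hQ (fun v hv => hr v hv (fun h => hs0 (h ▸ hv))) hne
    omega

end Pool.Agent.ThreeDec
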