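import Pool.Agent.ThreeDec.Defs

set_option autoImplicit false

namespace Pool.Agent.ThreeDec

open Finset

universe u
variable {V : Type u} [Fintype V]

section
open Classical

lemma bd_sum_eq (W : SimpleGraph V) (A : Finset V) (O : Finset (Finset V))
    (h1 : ∀ Q ∈ O, Disjoint Q A ∧ ∀ v ∈ Q, ∀ w, W.Adj v w → w ∈ Q ∨ w ∈ A)
    (h2 : ∀ Q ∈ O, ∀ Q' ∈ O, Q ≠ Q' → Disjoint Q Q') :
    ∑ Q ∈ O, bd W Q = ∑ a ∈ A, ((nb W a).filter (fun w => w ∈ O.biUnion id)).card := by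
  have e1 : ∑ Q ∈ O, bd W Q = ∑ v ∈ O.biUnion id, ((nb W v).filter (fun w => w ∈ A)).card := by
    rw [Finset.sum_biUnion (t := id) (fun Q hQ Q' hQ' hne => h2 Q hQ Q' hQ' hne)]
    apply Finset.sum_congr rfl
    intro Q hQ
    unfold bd
    apply Finset.sum_congr rfl
    intro v hv
    congr 1
    apply Finset.filter_congr
    intro w hw
    rw [mem_nb] at hw
    constructor
    · intro h
      exact ((h1 Q hQ).2 v hv w hw).resolve_left h
    · intro h h'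
      exact (Finset.disjoint_left.1 (h1 Q hQ).1) h' h
  rw [e1]
  have e2 : ∀ (v : V) (B : Finset V), ((nb W v).filter (fun w => w ∈ B)).card =
      ∑ w ∈ B, if W.Adj v w then 1 else 0 := by
    intro v B
    rw [← Finset.card_filter]
    congr 1
    ext w
    rw [mem_filter, mem_filter, mem_nb, and_comm]
  rw [Finset.sum_congr rfl (fun v _ => e2 v A), Finset.sum_comm]
  apply Finset.sum_congr rfl
  intro a _
  rw [e2 a]
  apply Finset.sum_congr rfl
  intro v _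
  congr 1
  exact propext (W.adj_comm v a)

/-- double counting: the sets `Q` of a disjoint family send edges only to `Q` and `A` -/
lemma bd_sum_le (W : SimpleGraph V) (A : Finset V) (O : Finset (Finset V))
    (h1 : ∀ Q ∈ O, Disjoint Q A ∧ ∀ v ∈ Q, ∀ w, W.Adj v w → w ∈ Q ∨ w ∈ A)
    (h2 : ∀ Q ∈ O, ∀ Q' ∈ O, Q ≠ Q' → Disjoint Q Q') :
    ∑ Q ∈ O, bd W Q ≤ ∑ a ∈ A, dg W a := by
  rw [bd_sum_eq W A O h1 h2]
  exact Finset.sum_le_sum (fun a _ => Finset.card_filter_le _ _)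

/-- strict form: some edge from `A` to a vertex outside all `Q` -/
lemma bd_sum_lt (W : SimpleGraph V) (A : Finset V) (O : Finset (Finset V))
    (h1 : ∀ Q ∈ O, Disjoint Q A ∧ ∀ v ∈ Q, ∀ w, W.Adj v w → w ∈ Q ∨ w ∈ A)
    (h2 : ∀ Q ∈ O, ∀ Q' ∈ O, Q ≠ Q' → Disjoint Q Q')
    (a w : V) (ha : a ∈ A) (haw : W.Adj a w) (hw : ∀ Q ∈ O, w ∉ Q) :
    ∑ Q ∈ O, bd W Q < ∑ a ∈ A, dg W a := by
  rw [bd_sum_eq W A O h1 h2]
  apply Finset.sum_lt_sum (fun a _ => Finset.card_filter_le _ _)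
  refine ⟨a, ha, ?_⟩
  apply Finset.card_lt_card
  refine ⟨Finset.filter_subset _ _, fun h => ?_⟩
  have h3 := h ((mem_nb).2 haw)
  rw [mem_filter, mem_biUnion] at h3
  obtain ⟨_, Q, hQ, hwQ⟩ := h3
  exact hw Q hQ hwQ

end

end Pool.Agent.ThreeDec
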