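import Pool.Agent.ThreeDec.Defs

set_option autoImplicit false

/-! Piece (T): interface to Tutte's theorem (helper81, after helper29's `tutte_sets`). -/

namespace Pool.Agent.ThreeDec

open Finset

universe u
variable {V : Type u} [Fintype V]

/-- Tutte's theorem, sufficiency, with parity, in terms of sets. -/
theorem tutte_sets (G : SimpleGraph V) (hno : ¬ ∃ M : G.Subgraph, M.IsPerfectMatching) :
    ∃ (S : Set V) (D : Set (Set V)), S.ncard < D.ncard ∧
      (S.ncard + D.ncard) % 2 = Nat.card V % 2 ∧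
      (∀ Q ∈ D, Odd Q.ncard ∧ Disjoint Q S ∧ ∀ x ∈ Q, ∀ y, G.Adj x y → y ∈ Q ∨ y ∈ S) ∧
      (∀ Q ∈ D, ∀ Q' ∈ D, Q ≠ Q' → Disjoint Q Q') := by
  classical
  have h1 : ∃ u, G.IsTutteViolator u := by
    by_contra h
    push Not at h
    exact hno (SimpleGraph.tutte.mpr h)
  obtain ⟨S, hS⟩ := h1
  set K := ((⊤ : G.Subgraph).deleteVerts S).coe with hK
  let f : K.ConnectedComponent → Set V := fun c => Subtype.val '' c.supp
  have hf : Function.Injective f := by
    intro c d hcd
    have : c.supp = d.supp := Subtype.val_injective.image_injective hcd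
    exact SimpleGraph.ConnectedComponent.supp_injective this
  refine ⟨S, f '' K.oddComponents, ?_, ?_, ?_, ?_⟩
  · rw [Set.ncard_image_of_injective _ hf]
    exact hS
  · rw [Set.ncard_image_of_injective _ hf]
    have hpar : Odd K.oddComponents.ncard ↔
        Odd (Nat.card ((⊤ : G.Subgraph).deleteVerts S).verts) :=
      SimpleGraph.odd_ncard_oddComponents _
    have hcard : Nat.card ((⊤ : G.Subgraph).deleteVerts S).verts + S.ncard = Nat.card V := by
      have : ((⊤ : G.Subgraph).deleteVerts S).verts = Sᶜ := by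
        ext x; simp
      rw [this, Nat.card_coe_set_eq]
      rw [add_comm]
      exact Set.ncard_add_ncard_compl S
    rw [Nat.odd_iff, Nat.odd_iff] at hpar
    omega
  · rintro D ⟨c, hc, rfl⟩
    refine ⟨?_, ?_, ?_⟩
    · have : Odd c.supp.ncard := hc
      simpa [f, Set.ncard_image_of_injective _ Subtype.val_injective] using this
    · rw [Set.disjoint_left]
      rintro _ ⟨x, _, rfl⟩ hx
      have hx2 : (x : V) ∈ ((⊤ : G.Subgraph).deleteVerts S).verts := x.2
      have hx3 : (x : V) ∈ (⊤ : G.Subgraph).verts \ S := hx2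
      exact hx3.2 hx
    · rintro _ ⟨x, hx, rfl⟩ y hxy
      by_cases hy : y ∈ S
      · exact Or.inr hy
      · left
        have hyv : y ∈ ((⊤ : G.Subgraph).deleteVerts S).verts := by simp [hy]
        refine ⟨⟨y, hyv⟩, ?_, rfl⟩
        have hadj : K.Adj x ⟨y, hyv⟩ := by
          have hx2 := x.2
          simp only [SimpleGraph.Subgraph.deleteVerts_verts, SimpleGraph.Subgraph.verts_top,
            Set.mem_sdiff, Set.mem_univ, true_and] at hx2
          rw [hK, SimpleGraph.Subgraph.coe_adj, SimpleGraph.Subgraph.deleteVerts_adj]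
          simp [hx2, hy, hxy]
        exact (c.mem_supp_congr_adj hadj).mp hx
  · rintro D ⟨c, hc, rfl⟩ D' ⟨d, hd, rfl⟩ hne
    have hcd : c ≠ d := fun h => hne (by rw [h])
    exact Set.disjoint_image_of_injective Subtype.val_injective
      (SimpleGraph.pairwise_disjoint_supp_connectedComponent _ hcd)

theorem tutte_interface (G : SimpleGraph V)
    (hno : ¬ ∃ N : SimpleGraph V, N ≤ G ∧ IsMat N ∧ ∀ v, ∃ w, N.Adj v w) :
    ∃ (A : Finset V) (O : Finset (Finset V)),
      A.card < O.card ∧ (A.card + O.card) % 2 = Fintype.card V % 2 ∧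
      (∀ Q ∈ O, Odd Q.card ∧ Disjoint Q A ∧ ∀ v ∈ Q, ∀ w, G.Adj v w → w ∈ Q ∨ w ∈ A) ∧
      (∀ Q ∈ O, ∀ Q' ∈ O, Q ≠ Q' → Disjoint Q Q') := by
  classical
  have hno' : ¬ ∃ M : G.Subgraph, M.IsPerfectMatching := by
    rintro ⟨M, hM⟩
    refine hno ⟨M.spanningCoe, M.spanningCoe_le, ?_, ?_⟩
    · intro v a b ha hb
      have ha' : M.Adj v a := ha
      have hb' : M.Adj v b := hb
      exact (hM.1 (M.edge_vert ha')).unique ha' hb'
    · intro v
      obtain ⟨w, hw, _⟩ := hM.1 (hM.2 v)
      exact ⟨w, hw⟩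
  obtain ⟨S, D, h1, h2, h3, h4⟩ := tutte_sets G hno'
  have hinj : Function.Injective (fun Q : Set V => Q.toFinset) := by
    intro a b hab
    exact Set.toFinset_inj.mp hab
  refine ⟨S.toFinset, D.toFinset.image (fun Q : Set V => Q.toFinset), ?_, ?_, ?_, ?_⟩
  · rw [Finset.card_image_of_injective _ hinj]
    rw [Set.ncard_eq_toFinset_card', Set.ncard_eq_toFinset_card'] at h1
    exact h1
  · rw [Finset.card_image_of_injective _ hinj]
    rw [Set.ncard_eq_toFinset_card', Set.ncard_eq_toFinset_card', Nat.card_eq_fintype_card] at h2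
    exact h2
  · intro Q hQ
    rw [Finset.mem_image] at hQ
    obtain ⟨R, hR, rfl⟩ := hQ
    obtain ⟨a, b, c⟩ := h3 R (Set.mem_toFinset.mp hR)
    refine ⟨?_, ?_, ?_⟩
    · rwa [Set.ncard_eq_toFinset_card'] at a
    · rw [Set.disjoint_toFinset]; exact b
    · intro v hv w hvw
      rw [Set.mem_toFinset] at hv ⊢
      rw [Set.mem_toFinset]
      exact c v hv w hvw
  · intro Q hQ Q' hQ' hne
    rw [Finset.mem_image] at hQ hQ'
    obtain ⟨R, hR, rfl⟩ := hQ
    obtain ⟨R', hR', rfl⟩ := hQ'
    rw [Set.disjoint_toFinset]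
    refine h4 R (Set.mem_toFinset.mp hR) R' (Set.mem_toFinset.mp hR') ?_
    rintro rfl
    exact hne rfl

end Pool.Agent.ThreeDec
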