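import Pool.Agent.ThreeDec.Deg
import Pool.Agent.ThreeDec.Tutte
import Pool.Agent.ThreeDec.Bd
import Pool.Agent.ThreeDec.BdSum

set_option autoImplicit false

/-! (I) the initial state: a matching covering all rigid vertices and one soft vertex. -/

namespace Pool.Agent.ThreeDec

open Finset

universe u
variable {V : Type u} [Fintype V]

/-! ### matchings covering a prescribed set -/

/-- two copies of `G`, all vertices outside `B` (of both copies) pairwise adjacent -/
def dbl (G : SimpleGraph V) (B : V → Prop) : SimpleGraph (Bool × V) where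
  Adj p q := (p.1 = q.1 ∧ G.Adj p.2 q.2) ∨ (¬ B p.2 ∧ ¬ B q.2 ∧ p ≠ q)
  symm := ⟨by
    rintro p q (⟨h1, h2⟩ | ⟨h1, h2, h3⟩)
    · exact Or.inl ⟨h1.symm, h2.symm⟩
    · exact Or.inr ⟨h2, h1, h3.symm⟩⟩
  loopless := ⟨by
    rintro p (⟨_, h2⟩ | ⟨_, _, h3⟩)
    · exact G.loopless.irrefl _ h2
    · exact h3 rfl⟩

open Classical in
/-- the part of `Q` in the copy `i` -/
noncomputable def slice (i : Bool) (Q : Finset (Bool × V)) : Finset V :=
  univ.filter (fun v => (i, v) ∈ Q)

@[simp] lemma mem_slice {i : Bool} {Q : Finset (Bool × V)} {v : V} :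
    v ∈ slice i Q ↔ (i, v) ∈ Q := by
  classical
  simp [slice]

lemma card_slice (Q : Finset (Bool × V)) :
    Q.card = (slice false Q).card + (slice true Q).card := by
  classical
  have h : Q = (slice false Q).image (fun v => (false, v)) ∪
      (slice true Q).image (fun v => (true, v)) := by
    ext ⟨i, v⟩
    simp only [mem_union, mem_image, mem_slice, Prod.mk.injEq]
    constructor
    · intro h
      cases i
      · exact Or.inl ⟨v, h, rfl, rfl⟩
      · exact Or.inr ⟨v, h, rfl, rfl⟩
    · rintro (⟨w, hw, rfl, rfl⟩ | ⟨w, hw, rfl, rfl⟩) <;> exact hw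
  have hd : Disjoint ((slice false Q).image (fun v => (false, v)))
      ((slice true Q).image (fun v => (true, v))) := by
    rw [Finset.disjoint_left]
    rintro ⟨i, v⟩ h1 h2
    simp only [mem_image, Prod.mk.injEq] at h1 h2
    obtain ⟨_, _, h1, _⟩ := h1
    obtain ⟨_, _, h2, _⟩ := h2
    rw [← h1] at h2
    exact absurd h2 (by decide)
  conv_lhs => rw [h]
  rw [card_union_of_disjoint hd, card_image_of_injective _ (fun a b h => (Prod.mk.inj h).2),
    card_image_of_injective _ (fun a b h => (Prod.mk.inj h).2)]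

/-- a Tutte type condition for a matching covering all vertices in `B` -/
theorem cover_of_tutte (G : SimpleGraph V) (B : V → Prop)
    (h : ∀ (A : Finset V) (O : Finset (Finset V)),
      (∀ Q ∈ O, Odd Q.card ∧ Disjoint Q A ∧ (∀ v ∈ Q, B v) ∧
        ∀ v ∈ Q, ∀ w, G.Adj v w → w ∈ Q ∨ w ∈ A) →
      (∀ Q ∈ O, ∀ Q' ∈ O, Q ≠ Q' → Disjoint Q Q') → O.card ≤ A.card) :
    ∃ M : SimpleGraph V, M ≤ G ∧ IsMat M ∧ ∀ v, B v → ∃ w, M.Adj v w := by
  classical
  by_cases hN : ∃ N : SimpleGraph (Bool × V), N ≤ dbl G B ∧ IsMat N ∧ ∀ v, ∃ w, N.Adj v w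
  · obtain ⟨N, hle, hmat, hper⟩ := hN
    refine ⟨{ Adj := fun u v => G.Adj u v ∧ N.Adj (false, u) (false, v)
              symm := ⟨fun u v h => ⟨h.1.symm, h.2.symm⟩⟩
              loopless := ⟨fun u h => G.loopless.irrefl _ h.1⟩ }, ?_, ?_, ?_⟩
    · intro u v h
      exact h.1
    · intro v a b ha hb
      have := hmat (false, v) (false, a) (false, b) ha.2 hb.2
      exact (Prod.mk.inj this).2
    · intro v hv
      obtain ⟨⟨i, w⟩, hw⟩ := hper (false, v)
      rcases hle hw with ⟨h1, h2⟩ | ⟨h1, _, _⟩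
      · simp only at h1 h2
        subst h1
        exact ⟨w, h2, hw⟩
      · exact absurd hv h1
  · exfalso
    obtain ⟨A, O, hlt, hpar, hQ, hdis⟩ := tutte_interface (dbl G B) hN
    have hcard : Fintype.card (Bool × V) % 2 = 0 := by
      rw [Fintype.card_prod, Fintype.card_bool]; omega
    rw [hcard] at hpar
    -- sets without free vertices
    let P : Finset (Bool × V) → Prop := fun Q => ∀ p ∈ Q, B p.2
    have h1 : (O.filter (fun Q => ¬ P Q)).card ≤ 1 := by
      rw [Finset.card_le_one]
      intro Q hQ1 Q' hQ1'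
      rw [mem_filter] at hQ1 hQ1'
      by_contra hne
      obtain ⟨p, hp, hp2⟩ : ∃ p ∈ Q, ¬ B p.2 := by
        by_contra hcon
        push Not at hcon
        exact hQ1.2 hcon
      obtain ⟨q, hq, hq2⟩ : ∃ q ∈ Q', ¬ B q.2 := by
        by_contra hcon
        push Not at hcon
        exact hQ1'.2 hcon
      have hpq : p ≠ q := by
        rintro rfl
        exact Finset.disjoint_left.mp (hdis Q hQ1.1 Q' hQ1'.1 hne) hp hq
      rcases (hQ Q hQ1.1).2.2 p hp q (Or.inr ⟨hp2, hq2, hpq⟩) with h | h
      · exact Finset.disjoint_left.mp (hdis Q hQ1.1 Q' hQ1'.1 hne) h hq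
      · exact Finset.disjoint_left.mp (hQ Q' hQ1'.1).2.1 hq h
    -- the slices
    have hsl : ∀ i : Bool, ((O.filter P).filter (fun Q => Odd (slice i Q).card)).card
        ≤ (slice i A).card := by
      intro i
      have hinj : Set.InjOn (slice i)
          (((O.filter P).filter (fun Q => Odd (slice i Q).card) : Finset (Finset (Bool × V))) :
            Set (Finset (Bool × V))) := by
        intro Q hq Q' hq' heq
        rw [mem_coe, mem_filter, mem_filter] at hq hq'
        by_contra hne
        obtain ⟨v, hv⟩ := Finset.card_pos.mp hq.2.pos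
        have hv' : v ∈ slice i Q' := by rw [← heq]; exact hv
        exact Finset.disjoint_left.mp (hdis Q hq.1.1 Q' hq'.1.1 hne) (mem_slice.mp hv)
          (mem_slice.mp hv')
      rw [← Finset.card_image_of_injOn hinj]
      refine h (slice i A) _ ?_ ?_
      · intro S hS
        rw [mem_image] at hS
        obtain ⟨Q, hq, rfl⟩ := hS
        rw [mem_filter, mem_filter] at hq
        refine ⟨hq.2, ?_, ?_, ?_⟩
        · rw [Finset.disjoint_left]
          intro v hv hv2
          exact Finset.disjoint_left.mp (hQ Q hq.1.1).2.1 (mem_slice.mp hv) (mem_slice.mp hv2)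
        · intro v hv
          exact hq.1.2 (i, v) (mem_slice.mp hv)
        · intro v hv w hvw
          rcases (hQ Q hq.1.1).2.2 (i, v) (mem_slice.mp hv) (i, w) (Or.inl ⟨rfl, hvw⟩) with h | h
          · exact Or.inl (mem_slice.mpr h)
          · exact Or.inr (mem_slice.mpr h)
      · intro S hS S' hS' hne
        rw [mem_image] at hS hS'
        obtain ⟨Q, hq, rfl⟩ := hS
        obtain ⟨Q', hq', rfl⟩ := hS'
        rw [mem_filter, mem_filter] at hq hq'
        have hne' : Q ≠ Q' := fun h => hne (by rw [h])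
        rw [Finset.disjoint_left]
        intro v hv hv2
        exact Finset.disjoint_left.mp (hdis Q hq.1.1 Q' hq'.1.1 hne') (mem_slice.mp hv)
          (mem_slice.mp hv2)
    have h2 : (O.filter P).card ≤ A.card := by
      have hsub : O.filter P ⊆ (O.filter P).filter (fun Q => Odd (slice false Q).card) ∪
          (O.filter P).filter (fun Q => Odd (slice true Q).card) := by
        intro Q hq
        have hodd := (hQ Q (mem_filter.mp hq).1).1
        rw [card_slice Q] at hodd
        rw [mem_union]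
        by_cases hf : Odd (slice false Q).card
        · exact Or.inl (mem_filter.mpr ⟨hq, hf⟩)
        · refine Or.inr (mem_filter.mpr ⟨hq, ?_⟩)
          rw [Nat.not_odd_iff_even] at hf
          rw [Nat.odd_add] at hodd
          by_contra ht
          rw [Nat.not_odd_iff_even] at ht
          exact absurd (hodd.mpr ht) (by rw [Nat.not_odd_iff_even]; exact hf)
      calc (O.filter P).card ≤ _ := Finset.card_le_card hsub
        _ ≤ _ := Finset.card_union_le _ _
        _ ≤ (slice false A).card + (slice true A).card := Nat.add_le_add (hsl false) (hsl true)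
        _ = A.card := (card_slice A).symm
    have h3 : (O.filter P).card + (O.filter (fun Q => ¬ P Q)).card = O.card :=
      Finset.card_filter_add_card_filter_not _
    omega

theorem initial (W : SimpleGraph V) (hc : W.Connected) (hb : Bridgeless W)
    (hd : ∀ v, dg W v = 2 ∨ dg W v = 3) (s0 s1 : V) (h0 : dg W s0 = 2) (h1 : dg W s1 = 2)
    (hne : s0 ≠ s1) :
    ∃ M : SimpleGraph V, M ≤ W ∧ IsMat M ∧ ∀ v, (dg W v = 3 ∨ v = s0) → ∃ w, M.Adj v w := by
  classical
  refine cover_of_tutte W (fun v => dg W v = 3 ∨ v = s0) ?_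
  intro A O hQ hdis
  have hle : ∑ Q ∈ O, bd W Q ≤ ∑ a ∈ A, dg W a :=
    bd_sum_le W A O (fun Q hq => ⟨(hQ Q hq).2.1, (hQ Q hq).2.2.2⟩) hdis
  have hA : ∑ a ∈ A, dg W a ≤ 3 * A.card := by
    calc ∑ a ∈ A, dg W a ≤ ∑ a ∈ A, 3 := by
          apply Finset.sum_le_sum
          intro a _
          rcases hd a with h | h <;> omega
      _ = 3 * A.card := by rw [Finset.sum_const, smul_eq_mul, mul_comm]
  have huniv : ∀ Q ∈ O, Q ≠ univ := by
    intro Q hq h
    have : s1 ∈ Q := by rw [h]; exact mem_univ _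
    rcases (hQ Q hq).2.2.1 s1 this with h | h
    · omega
    · exact hne h.symm
  have hpt : ∀ Q ∈ O, 3 ≤ bd W Q + (if s0 ∈ Q then 1 else 0) := by
    intro Q hq
    by_cases hs : s0 ∈ Q
    · rw [if_pos hs]
      have := bd_two hc hb Q s0 (hQ Q hq).1 h0 (fun v hv hvs =>
        ((hQ Q hq).2.2.1 v hv).resolve_right hvs) (huniv Q hq)
      omega
    · rw [if_neg hs]
      have := bd_three hc hb Q (hQ Q hq).1 (fun v hv =>
        ((hQ Q hq).2.2.1 v hv).resolve_right (fun h => hs (h ▸ hv))) (huniv Q hq)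
      omega
  have hs0 : ∑ Q ∈ O, (if s0 ∈ Q then 1 else 0) ≤ 1 := by
    rw [← Finset.card_filter]
    rw [Finset.card_le_one]
    intro Q hq Q' hq'
    rw [mem_filter] at hq hq'
    by_contra hne'
    exact Finset.disjoint_left.mp (hdis Q hq.1 Q' hq'.1 hne') hq.2 hq'.2
  have hsum : 3 * O.card ≤ ∑ Q ∈ O, bd W Q + ∑ Q ∈ O, (if s0 ∈ Q then 1 else 0) := by
    rw [← Finset.sum_add_distrib]
    calc 3 * O.card = ∑ Q ∈ O, 3 := by rw [Finset.sum_const, smul_eq_mul, mul_comm]
      _ ≤ _ := Finset.sum_le_sum hpt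
  omega

end Pool.Agent.ThreeDec
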