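import Pool.Agent.ThreeDec.Defs

set_option autoImplicit false

/-! Piece (R), version of helper30: all bridges are removed at once, Theorem B is applied to every
component of the rest. -/

namespace Pool.Agent.ThreeDec.R30

open Finset

universe u
variable {V : Type u} [Fintype V]

lemma dg_ncard {U : Type*} [Fintype U] (G : SimpleGraph U) (v : U) :
    dg G v = (G.neighborSet v).ncard := by
  classical
  have h : G.neighborSet v = ((nb G v : Finset U) : Set U) := by
    ext w
    simp
  rw [h, Set.ncard_coe_finset]
  rfl

lemma dg_mono {U : Type*} [Fintype U] {G H : SimpleGraph U} (h : G ≤ H) (v : U) :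
    dg G v ≤ dg H v := by
  rw [dg_ncard, dg_ncard]
  exact Set.ncard_le_ncard (fun x hx => h hx) (Set.toFinite _)

/-- `J` without its bridges -/
def nobr (J : SimpleGraph V) : SimpleGraph V where
  Adj a b := J.Adj a b ∧ ¬ J.IsBridge s(a, b)
  symm := ⟨fun _ _ h => ⟨h.1.symm, by rw [Sym2.eq_swap]; exact h.2⟩⟩
  loopless := ⟨fun _ h => h.1.ne rfl⟩

omit [Fintype V] in
lemma nobr_le (J : SimpleGraph V) : nobr J ≤ J := fun _ _ h => h.1

omit [Fintype V] in
lemma cycle_edge {J : SimpleGraph V} {x : V} (p : J.Walk x x) (hp : p.IsCycle)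
    (e : Sym2 V) (he : e ∈ p.edges) : e ∈ (nobr J).edgeSet := by
  have h1 : e ∈ J.edgeSet := p.edges_subset_edgeSet he
  have h2 : ¬ J.IsBridge e := by
    rw [SimpleGraph.isBridge_iff_forall_cycle_notMem h1]
    intro h
    exact h p hp he
  induction e with
  | _ a b => exact ⟨h1, h2⟩

omit [Fintype V] in
lemma nobr_bridgeless (J : SimpleGraph V) : Bridgeless (nobr J) := by
  intro a b hab
  have h1 : J.Adj a b ∧ (J.deleteEdges {s(a, b)}).Reachable a b := by
    refine ⟨hab.1, ?_⟩
    by_contra hcon
    exact hab.2 (SimpleGraph.isBridge_iff.mpr hcon)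
  obtain ⟨x, p, hp, hpe⟩ := SimpleGraph.adj_and_reachable_delete_edges_iff_exists_cycle.mp h1
  have h2 : ∃ (y : V) (q : (nobr J).Walk y y), q.IsCycle ∧ s(a, b) ∈ q.edges := by
    refine ⟨x, p.transfer (nobr J) (fun e he => cycle_edge p hp e he), hp.transfer _, ?_⟩
    rw [SimpleGraph.Walk.edges_transfer]
    exact hpe
  exact (SimpleGraph.adj_and_reachable_delete_edges_iff_exists_cycle.mpr h2).2

/-- in a bridgeless graph there is no vertex of degree one -/
lemma dg_ne_one {W : SimpleGraph V} (hb : Bridgeless W) (v : V) : dg W v ≠ 1 := by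
  intro h
  rw [dg_ncard, Set.ncard_eq_one] at h
  obtain ⟨w, hw⟩ := h
  have hvw : W.Adj v w := by
    have : w ∈ W.neighborSet v := by rw [hw]; exact Set.mem_singleton _
    exact this
  obtain ⟨p⟩ := hb v w hvw
  cases p with
  | nil => exact hvw.ne rfl
  | cons h q =>
    rename_i x
    have hx : W.Adj v x := h.1
    have hxw : x = w := by
      have : x ∈ W.neighborSet v := hx
      rw [hw] at this
      exact this
    apply h.2
    rw [SimpleGraph.fromEdgeSet_adj, hxw]
    exact ⟨Set.mem_singleton _, hvw.ne⟩

omit [Fintype V] in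
/-- a walk starting in a component stays there -/
lemma supp_of_walk {W X : SimpleGraph V} (hXW : X ≤ W) (c : W.ConnectedComponent) {a b : V}
    (ha : a ∈ c.supp) (q : X.Walk a b) : ∀ x ∈ q.support, x ∈ c.supp := by
  classical
  intro x hx
  rw [SimpleGraph.ConnectedComponent.mem_supp_iff] at ha ⊢
  rw [← ha, SimpleGraph.ConnectedComponent.eq]
  have h1 : X.Reachable a x := ⟨q.takeUntil x hx⟩
  exact (h1.mono hXW).symm

omit [Fintype V] in
lemma reach_induce {W X : SimpleGraph V} (hXW : X ≤ W) (c : W.ConnectedComponent) {a b : V}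
    (ha : a ∈ c.supp) (hb : b ∈ c.supp) (h : X.Reachable a b) :
    (X.induce c.supp).Reachable ⟨a, ha⟩ ⟨b, hb⟩ := by
  obtain ⟨q⟩ := h
  exact ⟨q.induce c.supp (supp_of_walk hXW c ha q)⟩

omit [Fintype V] in
lemma reach_of_adj {J X : SimpleGraph V} (h : ∀ a b, J.Adj a b → X.Reachable a b) {a b : V}
    (hab : J.Reachable a b) : X.Reachable a b := by
  obtain ⟨p⟩ := hab
  induction p with
  | nil => exact SimpleGraph.Reachable.refl _
  | cons hadj _ ih => exact (h _ _ hadj).trans ih

theorem theoremR_of
    (hB : ∀ (U : Type u) [Fintype U] (W : SimpleGraph U), W.Connected → Bridgeless W →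
      (∀ v, dg W v = 2 ∨ dg W v = 3) → Reduced W →
      ∃ M : SimpleGraph U, M ≤ W ∧ IsMat M ∧ (W \ M).IsTree)
    (J : SimpleGraph V) (hc : J.Connected) (hd : ∀ v, dg J v ≤ 3) (hr : Reduced J) :
    ∃ M : SimpleGraph V, M ≤ J ∧ IsMat M ∧ (J \ M).IsTree := by
  classical
  set W : SimpleGraph V := nobr J with hWdef
  have hWJ : W ≤ J := nobr_le J
  have hWb : Bridgeless W := nobr_bridgeless J
  -- the components
  have key : ∀ c : W.ConnectedComponent, ∃ M : SimpleGraph c.supp,
      M ≤ W.induce c.supp ∧ IsMat M ∧ ((W.induce c.supp) \ M).IsTree := by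
    intro c
    have hcc : (W.induce c.supp).Connected := c.connected_toSimpleGraph
    have hnb : ∀ v : c.supp, (W.neighborSet (v : V)) =
        Subtype.val '' ((W.induce c.supp).neighborSet v) := by
      intro v
      ext w
      constructor
      · intro hw
        have hw' : W.Adj v w := hw
        have hwc : w ∈ c.supp := by
          have hv := v.2
          rw [SimpleGraph.ConnectedComponent.mem_supp_iff] at hv ⊢
          rw [← hv, SimpleGraph.ConnectedComponent.eq]
          exact hw'.symm.reachable
        exact ⟨⟨w, hwc⟩, hw', rfl⟩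
      · rintro ⟨x, hx, rfl⟩
        exact hx
    have hdeg : ∀ v : c.supp, dg (W.induce c.supp) v = dg W (v : V) := by
      intro v
      rw [dg_ncard, dg_ncard, hnb v, Set.ncard_image_of_injective _ Subtype.val_injective]
    by_cases hz : ∃ v : c.supp, dg (W.induce c.supp) v = 0
    · -- a single vertex
      obtain ⟨v, hv⟩ := hz
      have hv0 : (W.induce c.supp).neighborSet v = ∅ := by
        rw [dg_ncard] at hv
        exact (Set.ncard_eq_zero (Set.toFinite _)).mp hv
      have hall : ∀ w : c.supp, w = v := by
        intro w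
        obtain ⟨p⟩ := hcc.preconnected v w
        cases p with
        | nil => rfl
        | cons h q =>
          exfalso
          have h' := (SimpleGraph.mem_neighborSet _ _ _).mpr h
          rw [hv0] at h'
          exact h'
      refine ⟨⊥, bot_le, fun a b c h => absurd h (by simp), ?_⟩
      have hbot : (W.induce c.supp) \ ⊥ = W.induce c.supp := by
        ext a b; simp
      rw [hbot]
      refine ⟨hcc, ?_⟩
      rw [SimpleGraph.isAcyclic_iff_forall_adj_isBridge]
      intro a b hab
      exact absurd ((hall a).trans (hall b).symm) hab.ne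
    · push Not at hz
      have h23 : ∀ v : c.supp, dg (W.induce c.supp) v = 2 ∨ dg (W.induce c.supp) v = 3 := by
        intro v
        have h1 := hz v
        have h2 : dg (W.induce c.supp) v ≤ 3 := by
          rw [hdeg v]
          exact (dg_mono hWJ _).trans (hd _)
        have h3 : dg (W.induce c.supp) v ≠ 1 := by
          rw [hdeg v]
          exact dg_ne_one hWb _
        omega
      refine hB c.supp (W.induce c.supp) hcc ?_ h23 ?_
      · -- bridgeless
        intro a b hab
        have hab' : W.Adj (a : V) (b : V) := hab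
        have h1 := hWb _ _ hab'
        have h2 := reach_induce (X := W \ SimpleGraph.fromEdgeSet {s((a : V), (b : V))})
          (fun x y h => h.1) c a.2 b.2 h1
        refine h2.mono ?_
        intro x y hxy
        refine ⟨hxy.1, ?_⟩
        intro h3
        apply hxy.2
        rw [SimpleGraph.fromEdgeSet_adj] at h3 ⊢
        refine ⟨?_, fun h => h3.2 (Subtype.ext h)⟩
        have h4 : s(x, y) = s(a, b) := h3.1
        have h5 : s((x : V), (y : V)) = s((a : V), (b : V)) := by
          have := congrArg (Sym2.map (Subtype.val : c.supp → V)) h4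
          simpa using this
        exact h5
      · -- reduced
        intro D hD hDne hDd hcon
        let D' : SimpleGraph V := D.map (Function.Embedding.subtype _)
        have hD'adj : ∀ a b : V, D'.Adj a b ↔ ∃ (ha : a ∈ c.supp) (hb : b ∈ c.supp),
            D.Adj ⟨a, ha⟩ ⟨b, hb⟩ := by
          intro a b
          constructor
          · intro h
            rw [SimpleGraph.map_adj] at h
            obtain ⟨x, y, hxy, hx, hy⟩ := h
            subst hx; subst hy
            exact ⟨x.2, y.2, hxy⟩
          · rintro ⟨ha, hb, h⟩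
            rw [SimpleGraph.map_adj]
            exact ⟨⟨a, ha⟩, ⟨b, hb⟩, h, rfl, rfl⟩
        have hD'J : D' ≤ J := by
          intro a b hab
          obtain ⟨ha, hb, h⟩ := (hD'adj a b).mp hab
          exact hWJ (hD h)
        apply hr D' hD'J
        · intro hbot
          apply hDne
          rw [eq_bot_iff]
          intro a b hab
          have h1 : D'.Adj a b := (hD'adj _ _).mpr ⟨a.2, b.2, hab⟩
          rw [hbot] at h1
          exact absurd h1 (by simp)
        · intro v
          by_cases hv : v ∈ c.supp
          · have e1 : D'.neighborSet v = Subtype.val '' (D.neighborSet ⟨v, hv⟩) := by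
              ext w
              constructor
              · intro hw
                obtain ⟨ha, hb, h⟩ := (hD'adj v w).mp hw
                exact ⟨⟨w, hb⟩, h, rfl⟩
              · rintro ⟨x, hx, rfl⟩
                exact (hD'adj _ _).mpr ⟨hv, x.2, hx⟩
            have e2 : dg D' v = dg D ⟨v, hv⟩ := by
              rw [dg_ncard, dg_ncard, e1, Set.ncard_image_of_injective _ Subtype.val_injective]
            rcases hDd ⟨v, hv⟩ with h | ⟨h, h'⟩
            · left; rw [e2]; exact h
            · right
              refine ⟨by rw [e2]; exact h, ?_⟩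
              rw [hdeg] at h'
              have h4 : dg W v ≤ dg J v := dg_mono hWJ v
              have h5 := hd v
              have h6 : dg W v = 3 := h'
              omega
          · left
            rw [dg_ncard]
            have : D'.neighborSet v = ∅ := by
              rw [Set.eq_empty_iff_forall_notMem]
              intro w hw
              obtain ⟨ha, hb, h⟩ := (hD'adj v w).mp hw
              exact hv ha
            rw [this, Set.ncard_empty]
        · -- connectedness of `J \ D'`
          have hstep : ∀ a b, J.Adj a b → (J \ D').Reachable a b := by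
            intro a b hab
            by_cases hD'ab : D'.Adj a b
            · obtain ⟨ha, hb, h⟩ := (hD'adj a b).mp hD'ab
              have h1 := hcon.preconnected ⟨a, ha⟩ ⟨b, hb⟩
              let f : ((W.induce c.supp) \ D) →g (J \ D') :=
                { toFun := Subtype.val
                  map_rel' := by
                    intro x y hxy
                    refine ⟨hWJ hxy.1, ?_⟩
                    intro h2
                    obtain ⟨hx, hy, h3⟩ := (hD'adj _ _).mp h2
                    exact hxy.2 h3 }
              exact h1.map f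
            · have : (J \ D').Adj a b := ⟨hab, hD'ab⟩
              exact this.reachable
          have := hc.nonempty
          exact ⟨fun a b => reach_of_adj hstep (hc.preconnected a b)⟩
  choose Mc hMle hMmat hMtree using key
  let M : SimpleGraph V :=
    { Adj := fun a b => ∃ (c : W.ConnectedComponent) (ha : a ∈ c.supp) (hb : b ∈ c.supp),
        (Mc c).Adj ⟨a, ha⟩ ⟨b, hb⟩
      symm := ⟨fun a b ⟨c, ha, hb, h⟩ => ⟨c, hb, ha, h.symm⟩⟩
      loopless := ⟨fun a ⟨c, ha, hb, h⟩ => h.ne rfl⟩ }
  have hMadj : ∀ (c : W.ConnectedComponent) (x y : c.supp), M.Adj (x : V) (y : V) ↔ (Mc c).Adj x y := by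
    intro c x y
    constructor
    · rintro ⟨c', ha, hb, h⟩
      have hcc : c' = c := by
        have h1 := x.2
        rw [SimpleGraph.ConnectedComponent.mem_supp_iff] at ha h1
        rw [← ha, h1]
      subst hcc
      exact h
    · intro h
      exact ⟨c, x.2, y.2, h⟩
  have hMJ : M ≤ J := by
    rintro a b ⟨c, ha, hb, h⟩
    exact hWJ (hMle c h)
  refine ⟨M, hMJ, ?_, ?_, ?_⟩
  · rintro v a b ⟨c, hv, ha, h⟩ ⟨c', hv', hb, h'⟩
    have hcc : c = c' := by
      rw [SimpleGraph.ConnectedComponent.mem_supp_iff] at hv hv'
      rw [← hv, hv']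
    subst hcc
    have := hMmat c ⟨v, hv⟩ ⟨a, ha⟩ ⟨b, hb⟩ h h'
    exact congrArg Subtype.val this
  · have hstep : ∀ a b, J.Adj a b → (J \ M).Reachable a b := by
      intro a b hab
      by_cases hMab : M.Adj a b
      · obtain ⟨c, ha, hb, h⟩ := hMab
        have h1 := (hMtree c).1.preconnected ⟨a, ha⟩ ⟨b, hb⟩
        let f : ((W.induce c.supp) \ (Mc c)) →g (J \ M) :=
          { toFun := Subtype.val
            map_rel' := by
              intro x y hxy
              refine ⟨hWJ hxy.1, ?_⟩
              intro h2
              exact hxy.2 ((hMadj c x y).mp h2) }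
        exact h1.map f
      · have : (J \ M).Adj a b := ⟨hab, hMab⟩
        exact this.reachable
    have := hc.nonempty
    exact ⟨fun a b => reach_of_adj hstep (hc.preconnected a b)⟩
  · -- acyclic
    have hX : (W \ M).IsAcyclic := by
      rw [SimpleGraph.isAcyclic_iff_forall_adj_isBridge]
      intro v w hvw
      rw [SimpleGraph.isBridge_iff]
      intro hreach
      let c : W.ConnectedComponent := W.connectedComponentMk v
      have hv : v ∈ c.supp := (SimpleGraph.ConnectedComponent.mem_supp_iff _ _).mpr rfl
      have hw : w ∈ c.supp := by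
        rw [SimpleGraph.ConnectedComponent.mem_supp_iff, SimpleGraph.ConnectedComponent.eq]
        exact hvw.1.symm.reachable
      have h1 := reach_induce (X := (W \ M).deleteEdges {s(v, w)})
        (fun x y h => (SimpleGraph.deleteEdges_adj.mp h).1.1) c hv hw hreach
      have h2 := (hMtree c).2
      rw [SimpleGraph.isAcyclic_iff_forall_adj_isBridge] at h2
      have h3 : ((W.induce c.supp) \ (Mc c)).Adj ⟨v, hv⟩ ⟨w, hw⟩ :=
        ⟨hvw.1, fun h => hvw.2 ((hMadj c ⟨v, hv⟩ ⟨w, hw⟩).mpr h)⟩
      have h4 := h2 h3
      rw [SimpleGraph.isBridge_iff] at h4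
      apply h4
      refine h1.mono ?_
      intro x y hxy
      have hxy' := SimpleGraph.deleteEdges_adj.mp hxy
      rw [SimpleGraph.deleteEdges_adj]
      refine ⟨⟨hxy'.1.1, fun h => hxy'.1.2 ((hMadj c x y).mpr h)⟩, ?_⟩
      intro h5
      apply hxy'.2
      have h6 : s(x, y) = s((⟨v, hv⟩ : c.supp), ⟨w, hw⟩) := h5
      have := congrArg (Sym2.map (Subtype.val : c.supp → V)) h6
      simpa using this
    intro v p hp
    have hle : J \ M ≤ J := fun x y h => h.1
    have hp' : (p.mapLe hle).IsCycle := hp.mapLe hle
    have hed : ∀ e ∈ p.edges, e ∈ (W \ M).edgeSet := by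
      intro e he
      have h1 : e ∈ (nobr J).edgeSet := by
        apply cycle_edge (p.mapLe hle) hp'
        rw [SimpleGraph.Walk.edges_mapLe_eq_edges]
        exact he
      have h2 : e ∈ (J \ M).edgeSet := p.edges_subset_edgeSet he
      induction e with
      | _ a b => exact ⟨h1, h2.2⟩
    exact hX (p.transfer (W \ M) hed) (hp.transfer hed)

end Pool.Agent.ThreeDec.R30
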