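import Pool.Agent.ThreeDec.Defs

set_option autoImplicit false

/-! Degrees of `W \\ M` for a matching `M ≤ W`. -/

namespace Pool.Agent.ThreeDec

open Finset

universe u
variable {V : Type u} [Fintype V]

/-! ### degrees of a difference -/

lemma nb_sdiff_union {W M : SimpleGraph V} (h : M ≤ W) (v : V) [DecidableEq V] :
    nb (W \ M) v ∪ nb M v = nb W v := by
  ext w
  simp only [mem_union, mem_nb, SimpleGraph.sdiff_adj]
  constructor
  · rintro (h1 | h1)
    · exact h1.1
    · exact h h1
  · intro h1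
    by_cases h2 : M.Adj v w
    · exact Or.inr h2
    · exact Or.inl ⟨h1, h2⟩

lemma dg_sdiff_add {W M : SimpleGraph V} (h : M ≤ W) (v : V) :
    dg (W \ M) v + dg M v = dg W v := by
  classical
  have hd : Disjoint (nb (W \ M) v) (nb M v) := by
    rw [Finset.disjoint_left]
    intro w h1 h2
    rw [mem_nb] at h1 h2
    exact h1.2 h2
  unfold dg
  rw [← card_union_of_disjoint hd, nb_sdiff_union h]

lemma dg_mat_le {M : SimpleGraph V} (h : IsMat M) (v : V) : dg M v ≤ 1 := by
  unfold dg
  rw [Finset.card_le_one]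
  intro a ha b hb
  rw [mem_nb] at ha hb
  exact h v a b ha hb

lemma dg_mat_covered {M : SimpleGraph V} (h : IsMat M) {v w : V} (hv : M.Adj v w) : dg M v = 1 := by
  refine le_antisymm (dg_mat_le h v) ?_
  unfold dg
  exact Finset.card_pos.mpr ⟨w, mem_nb.mpr hv⟩

lemma dg_mat_uncovered {M : SimpleGraph V} {v : V} (hv : ¬ ∃ w, M.Adj v w) : dg M v = 0 := by
  unfold dg
  rw [Finset.card_eq_zero, Finset.eq_empty_iff_forall_notMem]
  intro w hw
  exact hv ⟨w, mem_nb.mp hw⟩

end Pool.Agent.ThreeDec
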