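import Pool.Agent.ThreeDec.Defs

set_option autoImplicit false

/-! Lemma N: peeling the complement of a connected set containing all vertices of degree at most 2. -/

namespace Pool.Agent.ThreeDec

open Finset

universe u
variable {V : Type u} [Fintype V]

namespace LN

open Classical in
/-- degree of `v` into `R` -/
noncomputable def dR (W : SimpleGraph V) (R : Finset V) (v : V) : ℕ :=
  ((nb W v).filter (fun w => w ∈ R)).card

/-- the graph restricted to `R` -/
def rst (W : SimpleGraph V) (R : Finset V) : SimpleGraph V where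
  Adj a b := W.Adj a b ∧ a ∈ R ∧ b ∈ R
  symm := ⟨fun _ _ h => ⟨h.1.symm, h.2.2, h.2.1⟩⟩
  loopless := ⟨fun a h => W.loopless.irrefl a h.1⟩

/-- a nonempty set with minimum degree at least two inside -/
def Core (W : SimpleGraph V) (S : Finset V) : Prop := S.Nonempty ∧ ∀ v ∈ S, 2 ≤ dR W S v

lemma dR_mono (W : SimpleGraph V) {R S : Finset V} (h : R ⊆ S) (v : V) : dR W R v ≤ dR W S v := by
  classical
  unfold dR
  apply Finset.card_le_card
  intro w hw
  rw [Finset.mem_filter] at hw ⊢
  exact ⟨hw.1, h hw.2⟩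

lemma dR_le_dg (W : SimpleGraph V) (R : Finset V) (v : V) : dR W R v ≤ dg W v := by
  classical
  unfold dR dg
  exact Finset.card_le_card (Finset.filter_subset _ _)

lemma dR_add (W : SimpleGraph V) (R Y : Finset V) (h : ∀ v, v ∈ R ↔ v ∉ Y) (v : V) :
    dR W R v + dR W Y v = dg W v := by
  classical
  unfold dR dg
  have h1 : (nb W v).filter (fun w => w ∈ R) = (nb W v).filter (fun w => ¬ w ∈ Y) := by
    apply Finset.filter_congr
    intro w _
    exact h w
  rw [h1, add_comm]
  exact Finset.card_filter_add_card_filter_not (s := nb W v) (fun w => w ∈ Y)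

open Classical in
lemma sum_erase (W : SimpleGraph V) (R : Finset V) (w : V) (hw : w ∈ R) :
    ∑ v ∈ R, dR W R v = 2 * dR W R w + ∑ v ∈ R.erase w, dR W (R.erase w) v := by
  rw [← Finset.add_sum_erase R _ hw]
  have h1 : ∀ v ∈ R.erase w, dR W R v = dR W (R.erase w) v + (if W.Adj w v then 1 else 0) := by
    intro v hv
    unfold dR
    have hsub : (nb W v).filter (fun x => x ∈ R.erase w) = ((nb W v).filter (fun x => x ∈ R)).erase w := by
      ext x
      simp only [Finset.mem_filter, Finset.mem_erase]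
      tauto
    rw [hsub]
    by_cases h : W.Adj w v
    · have hmem : w ∈ (nb W v).filter (fun x => x ∈ R) := by
        rw [Finset.mem_filter]; exact ⟨mem_nb.2 h.symm, hw⟩
      rw [if_pos h]
      exact (Finset.card_erase_add_one hmem).symm
    · have hmem : w ∉ (nb W v).filter (fun x => x ∈ R) := by
        rw [Finset.mem_filter]; exact fun hh => h (mem_nb.1 hh.1).symm
      rw [if_neg h, Finset.erase_eq_of_notMem hmem, add_zero]
  rw [Finset.sum_congr rfl h1, Finset.sum_add_distrib]
  have h2 : ∑ v ∈ R.erase w, (if W.Adj w v then 1 else 0) = dR W R w := by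
    rw [← Finset.sum_filter, Finset.sum_const, smul_eq_mul, mul_one]
    unfold dR
    congr 1
    ext x
    simp only [Finset.mem_filter, Finset.mem_erase, mem_nb]
    constructor
    · rintro ⟨⟨_, h2⟩, h3⟩; exact ⟨h3, h2⟩
    · rintro ⟨h3, h2⟩; exact ⟨⟨h3.ne', h2⟩, h3⟩
  rw [h2]; ring

/-- peeling -/
lemma peel (W : SimpleGraph V) : ∀ n : ℕ, ∀ R : Finset V, R.card = n → R.Nonempty →
    (∀ S, S ⊆ R → ¬ Core W S) → ∑ v ∈ R, dR W R v + 2 ≤ 2 * R.card := by
  classical
  intro n
  induction n with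
  | zero => intro R hR hne _; rw [Finset.card_eq_zero] at hR; exact absurd hR hne.ne_empty
  | succ n ih =>
    intro R hR hne hno
    have h1 : ¬ ∀ v ∈ R, 2 ≤ dR W R v := fun h => hno R (Finset.Subset.refl _) ⟨hne, h⟩
    push Not at h1
    obtain ⟨w, hw, hlt⟩ := h1
    rw [sum_erase W R w hw]
    have hc : (R.erase w).card = n := by rw [Finset.card_erase_of_mem hw, hR]; rfl
    by_cases he : (R.erase w).Nonempty
    · have := ih (R.erase w) hc he (fun S hS => hno S (hS.trans (Finset.erase_subset _ _)))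
      rw [hc] at this
      rw [hR]
      omega
    · rw [Finset.not_nonempty_iff_eq_empty] at he
      rw [he, Finset.sum_empty]
      have h0 : dR W R w = 0 := by
        unfold dR
        rw [Finset.card_eq_zero, Finset.filter_eq_empty_iff]
        intro x hx hxR
        have hxw : x ≠ w := (mem_nb.1 hx).ne'
        have : x ∈ R.erase w := Finset.mem_erase.2 ⟨hxw, hxR⟩
        rw [he] at this
        exact absurd this (Finset.notMem_empty _)
      have : 0 < R.card := hne.card_pos
      omega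

/-- connectedness from a base point inside `Y` -/
def Con (W : SimpleGraph V) (y0 : V) (Y : Finset V) : Prop := ∀ y ∈ Y, (rst W Y).Reachable y0 y

omit [Fintype V] in
lemma rst_mono (W : SimpleGraph V) {Y Y' : Finset V} (h : Y ⊆ Y') : rst W Y ≤ rst W Y' := by
  intro a b hab
  exact ⟨hab.1, h hab.2.1, h hab.2.2⟩

open Classical in
lemma con_insert (W : SimpleGraph V) (y0 : V) (Y : Finset V) (hY : Con W y0 Y) (v y : V)
    (hy : y ∈ Y) (hv : W.Adj y v) : Con W y0 (insert v Y) := by
  intro x hx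
  have hsub : Y ⊆ insert v Y := Finset.subset_insert _ _
  rw [Finset.mem_insert] at hx
  rcases hx with rfl | hx
  · refine ((hY y hy).mono (rst_mono W hsub)).trans ?_
    apply SimpleGraph.Adj.reachable
    exact ⟨hv, hsub hy, Finset.mem_insert_self _ _⟩
  · exact (hY x hx).mono (rst_mono W hsub)

omit [Fintype V] in
lemma con_of_induce (W : SimpleGraph V) (Y : Finset V) (h : (W.induce (Y : Set V)).Connected) :
    ∃ y0 ∈ Y, Con W y0 Y := by
  obtain ⟨y0⟩ := h.nonempty
  refine ⟨y0.1, y0.2, ?_⟩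
  intro y hy
  have h1 : (W.induce (Y : Set V)).Reachable y0 ⟨y, hy⟩ := h.preconnected _ _
  let f : (W.induce (Y : Set V)) →g rst W Y :=
    { toFun := fun x => x.1
      map_rel' := fun {a b} hab => ⟨hab, a.2, b.2⟩ }
  exact h1.map f

open Classical in
lemma core_of_not_acyclic (W : SimpleGraph V) (Y : Finset V)
    (h : ¬ (W.induce ((Y : Set V)ᶜ)).IsAcyclic) :
    ∃ S : Finset V, Core W S ∧ ∀ v ∈ S, v ∉ Y := by
  unfold SimpleGraph.IsAcyclic at h
  push Not at h
  obtain ⟨v, c, hc⟩ := h
  refine ⟨(c.support.map (fun x => x.1)).toFinset, ⟨⟨v.1, ?_⟩, ?_⟩, ?_⟩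
  · rw [List.mem_toFinset, List.mem_map]
    exact ⟨v, c.start_mem_support, rfl⟩
  · intro x hx
    rw [List.mem_toFinset, List.mem_map] at hx
    obtain ⟨z, hz, rfl⟩ := hx
    have h2 := hc.ncard_neighborSet_toSubgraph_eq_two hz
    rw [← h2]
    unfold dR
    rw [← Set.ncard_coe_finset]
    have h3 : (c.toSubgraph.neighborSet z).ncard = (Subtype.val '' (c.toSubgraph.neighborSet z)).ncard :=
      (Set.ncard_image_of_injective _ Subtype.val_injective).symm
    rw [h3]
    apply Set.ncard_le_ncard _ (Set.toFinite _)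
    rintro _ ⟨w, hw, rfl⟩
    rw [Finset.mem_coe, Finset.mem_filter, List.mem_toFinset, List.mem_map, mem_nb]
    have hw' : c.toSubgraph.Adj z w := hw
    refine ⟨hw'.adj_sub, ⟨w, ?_, rfl⟩⟩
    exact SimpleGraph.Walk.mem_support_of_adj_toSubgraph hw'.symm
  · intro x hx
    rw [List.mem_toFinset, List.mem_map] at hx
    obtain ⟨z, _, rfl⟩ := hx
    exact z.2

end LN

open LN in
theorem lemmaN (W : SimpleGraph V) (hc : W.Connected) (hd : ∀ v, dg W v ≤ 3) (Y0 : Finset V)
    (hY0 : (W.induce (Y0 : Set V)).Connected) (hsoft : ∀ v, dg W v ≤ 2 → v ∈ Y0)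
    (hcyc : ¬ (W.induce ((Y0 : Set V)ᶜ)).IsAcyclic) : ¬ Reduced W := by
  classical
  obtain ⟨y0, hy0, hcon0⟩ := con_of_induce W Y0 hY0
  obtain ⟨S0, hS0, hS0Y⟩ := core_of_not_acyclic W Y0 hcyc
  -- a maximal good set
  let good : Finset V → Prop := fun Y => Y0 ⊆ Y ∧ Con W y0 Y ∧ ∃ S, Core W S ∧ ∀ v ∈ S, v ∉ Y
  obtain ⟨Y, hYmem, hYmax⟩ := Finset.exists_max_image (univ.filter good) (fun Y => Y.card)
    ⟨Y0, Finset.mem_filter.2 ⟨mem_univ _, Finset.Subset.refl _, hcon0, S0, hS0, hS0Y⟩⟩
  rw [Finset.mem_filter] at hYmem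
  obtain ⟨-, hY0Y, hcon, S, hS, hSY⟩ := hYmem
  have hmax : ∀ v, v ∉ Y → ¬ good (insert v Y) := by
    intro v hv hg
    have h1 := hYmax (insert v Y) (Finset.mem_filter.2 ⟨mem_univ _, hg⟩)
    rw [Finset.card_insert_of_notMem hv] at h1
    omega
  set R : Finset V := univ \ Y with hR
  have hmemR : ∀ v, v ∈ R ↔ v ∉ Y := by
    intro v; simp [hR]
  have hSR : S ⊆ R := fun v hv => (hmemR v).2 (hSY v hv)
  have hdR3 : ∀ v ∈ R, dg W v = 3 := by
    intro v hv
    by_contra hne
    have h1 := hd v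
    exact (hmemR v).1 hv (hY0Y (hsoft v (by omega)))
  have hadd := dR_add W R Y hmemR
  have hgetY : ∀ v, 1 ≤ dR W Y v → ∃ y ∈ Y, W.Adj y v := by
    intro v hv
    unfold dR at hv
    obtain ⟨y, hy⟩ := Finset.card_pos.1 hv
    rw [Finset.mem_filter] at hy
    exact ⟨y, hy.2, (mem_nb.1 hy.1).symm⟩
  -- every vertex of R has at least two neighbours in R
  have hmin : ∀ v ∈ R, 2 ≤ dR W R v := by
    intro v hv
    by_contra hlt
    push Not at hlt
    have h1 := hadd v
    rw [hdR3 v hv] at h1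
    obtain ⟨y, hy, hyv⟩ := hgetY v (by omega)
    apply hmax v ((hmemR v).1 hv)
    refine ⟨hY0Y.trans (Finset.subset_insert _ _), con_insert W y0 Y hcon v y hy hyv, S, hS, ?_⟩
    intro x hx hxi
    rw [Finset.mem_insert] at hxi
    rcases hxi with rfl | hxi
    · have h2 := hS.2 x hx
      have h3 := dR_mono W hSR x
      omega
    · exact hSY x hx hxi
  -- a vertex of R adjacent to Y
  obtain ⟨s, hs⟩ := hS.1
  have hsR : s ∈ R := hSR hs
  have hex : ∃ v ∈ R, ∃ y ∈ Y, W.Adj y v := by
    by_contra hno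
    push Not at hno
    obtain ⟨p⟩ := hc.preconnected y0 s
    have hclosed : ∀ (a b : V) (p : W.Walk a b), a ∈ Y → b ∈ Y := by
      intro a b p
      induction p with
      | nil => exact id
      | cons hadj _ ih =>
        intro ha
        apply ih
        by_contra hb
        exact hno _ ((hmemR _).2 hb) _ ha hadj
    exact (hmemR s).1 hsR (hclosed _ _ p (hY0Y hy0))
  obtain ⟨v, hvR, y, hyY, hyv⟩ := hex
  have hvY : 1 ≤ dR W Y v := by
    unfold dR
    apply Finset.card_pos.2
    exact ⟨y, Finset.mem_filter.2 ⟨mem_nb.2 hyv.symm, hyY⟩⟩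
  have hv2 : dR W R v ≤ 2 := by
    have h1 := hadd v
    rw [hdR3 v hvR] at h1
    omega
  have hno : ∀ T, T ⊆ R.erase v → ¬ Core W T := by
    intro T hT hcore
    apply hmax v ((hmemR v).1 hvR)
    refine ⟨hY0Y.trans (Finset.subset_insert _ _), con_insert W y0 Y hcon v y hyY hyv, T, hcore, ?_⟩
    intro x hx hxi
    have h2 := hT hx
    rw [Finset.mem_erase] at h2
    rw [Finset.mem_insert] at hxi
    rcases hxi with hxi | hxi
    · exact h2.1 hxi
    · exact (hmemR x).1 h2.2 hxi
  have hne : (R.erase v).Nonempty := by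
    have h1 : 0 < dR W R v := by have := hmin v hvR; omega
    unfold dR at h1
    obtain ⟨x, hx⟩ := Finset.card_pos.1 h1
    rw [Finset.mem_filter] at hx
    exact ⟨x, Finset.mem_erase.2 ⟨(mem_nb.1 hx.1).ne', hx.2⟩⟩
  have hpeel := peel W _ (R.erase v) rfl hne hno
  have hsum := sum_erase W R v hvR
  have hcard : (R.erase v).card + 1 = R.card := Finset.card_erase_add_one hvR
  have hsumle : ∑ x ∈ R, dR W R x ≤ ∑ x ∈ R, 2 := by
    rw [Finset.sum_const, smul_eq_mul]
    omega
  have hall2 : ∀ x ∈ R, dR W R x = 2 := by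
    intro x hx
    have h1 : ∑ x ∈ R, 2 = ∑ x ∈ R, dR W R x := le_antisymm (Finset.sum_le_sum hmin) hsumle
    exact ((Finset.sum_eq_sum_iff_of_le hmin).1 h1 x hx).symm
  -- the 2-regular subgraph
  intro hred
  refine hred (rst W R) (fun a b h => h.1) ?_ ?_ ?_
  · intro hbot
    have h1 : 0 < dR W R v := by have := hmin v hvR; omega
    unfold dR at h1
    obtain ⟨x, hx⟩ := Finset.card_pos.1 h1
    rw [Finset.mem_filter] at hx
    have h2 : (rst W R).Adj v x := ⟨mem_nb.1 hx.1, hvR, hx.2⟩
    rw [hbot] at h2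
    exact h2
  · intro x
    by_cases hx : x ∈ R
    · right
      refine ⟨?_, hdR3 x hx⟩
      rw [← hall2 x hx]
      unfold dg dR
      congr 1
      ext w
      rw [Finset.mem_filter, mem_nb, mem_nb]
      exact ⟨fun h => ⟨h.1, h.2.2⟩, fun h => ⟨h.1, hx, h.2⟩⟩
    · left
      unfold dg
      rw [Finset.card_eq_zero, Finset.eq_empty_iff_forall_notMem]
      intro w hw
      exact hx (mem_nb.1 hw).2.1
  · have hYreach : ∀ a ∈ Y, (W \ rst W R).Reachable y0 a := by
      intro a ha
      refine (hcon a ha).mono ?_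
      intro p q hpq
      rw [SimpleGraph.sdiff_adj]
      exact ⟨hpq.1, fun h => (hmemR p).1 h.2.1 hpq.2.1⟩
    have hall : ∀ a, (W \ rst W R).Reachable y0 a := by
      intro a
      by_cases ha : a ∈ Y
      · exact hYreach a ha
      · have haR : a ∈ R := (hmemR a).2 ha
        have h1 := hadd a
        rw [hdR3 a haR, hall2 a haR] at h1
        obtain ⟨b, hb, hba⟩ := hgetY a (by omega)
        refine (hYreach b hb).trans (SimpleGraph.Adj.reachable ?_)
        rw [SimpleGraph.sdiff_adj]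
        exact ⟨hba, fun h => (hmemR b).1 h.2.1 hb⟩
    have : Nonempty V := ⟨y0⟩
    exact SimpleGraph.Connected.mk (fun a b => (hall a).symm.trans (hall b))

end Pool.Agent.ThreeDec
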