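import Pool.Agent.ThreeDec.Tutte
import Pool.Agent.ThreeDec.Bd
import Pool.Agent.ThreeDec.BdSum

set_option autoImplicit false

/-! (S1) The contraction lemma: a matching covering exactly `Z`, one vertex of `P` and one vertex of `R`. -/

namespace Pool.Agent.ThreeDec

open Finset

universe u
variable {V : Type u} [Fintype V]

omit [Fintype V]

open Classical in
/-- the projection -/
noncomputable def phi (P Z : Finset V) (v : V) : {z // z ∈ Z} ⊕ Bool :=
  if h : v ∈ Z then Sum.inl ⟨v, h⟩ else if v ∈ P then Sum.inr true else Sum.inr false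

lemma phi_Z {P Z : Finset V} {v : V} (h : v ∈ Z) : phi P Z v = Sum.inl ⟨v, h⟩ := by
  unfold phi; rw [dif_pos h]

lemma phi_P {P Z : Finset V} {v : V} (hZ : v ∉ Z) (h : v ∈ P) : phi P Z v = Sum.inr true := by
  unfold phi; rw [dif_neg hZ, if_pos h]

lemma phi_R {P Z : Finset V} {v : V} (hZ : v ∉ Z) (h : v ∉ P) : phi P Z v = Sum.inr false := by
  unfold phi; rw [dif_neg hZ, if_neg h]

lemma phi_eq_inl {P Z : Finset V} {v : V} {z : {z // z ∈ Z}} (h : phi P Z v = Sum.inl z) :
    v = z.1 := by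
  unfold phi at h
  split_ifs at h with h1 h2
  rw [Sum.inl.injEq] at h
  rw [← h]

lemma phi_eq_true {P Z : Finset V} {v : V} (h : phi P Z v = Sum.inr true) : v ∉ Z ∧ v ∈ P := by
  unfold phi at h
  split_ifs at h with h1 h2
  · exact ⟨h1, h2⟩
  · simp at h

lemma phi_eq_false {P Z : Finset V} {v : V} (h : phi P Z v = Sum.inr false) : v ∉ Z ∧ v ∉ P := by
  unfold phi at h
  split_ifs at h with h1 h2
  · simp at h
  · exact ⟨h1, h2⟩

/-- contracted graph -/
def cgr (W : SimpleGraph V) (P Z : Finset V) : SimpleGraph ({z // z ∈ Z} ⊕ Bool) where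
  Adj p q := p ≠ q ∧ ∃ a b, phi P Z a = p ∧ phi P Z b = q ∧ W.Adj a b
  symm := by
    constructor
    rintro p q ⟨h, a, b, h1, h2, h3⟩
    exact ⟨h.symm, b, a, h2, h1, h3.symm⟩
  loopless := by
    constructor
    rintro p ⟨h, _⟩
    exact h rfl

variable [Fintype V]

lemma dg_one {M : SimpleGraph V} (hM : IsMat M) {v w : V} (h : M.Adj v w) : dg M v = 1 := by
  have : nb M v = {w} := by
    ext u
    rw [mem_nb, mem_singleton]
    exact ⟨fun hu => hM v u w hu h, fun hu => hu ▸ h⟩
  unfold dg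
  rw [this, card_singleton]

open Classical in
/-- a set closed under a matching covering it is even -/
lemma even_of_closed {M : SimpleGraph V} (hM : IsMat M) (Q : Finset V)
    (h : ∀ v ∈ Q, ∃ w ∈ Q, M.Adj v w) : Q.card % 2 = 0 := by
  have h1 := bd_parity M Q
  have h2 : ∑ v ∈ Q, dg M v = Q.card := by
    rw [Finset.card_eq_sum_ones]
    apply Finset.sum_congr rfl
    intro v hv
    obtain ⟨w, _, hw⟩ := h v hv
    exact dg_one hM hw
  have h3 : bd M Q = 0 := by
    unfold bd
    apply Finset.sum_eq_zero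
    intro v hv
    rw [Finset.card_eq_zero, Finset.filter_eq_empty_iff]
    intro w hw hwQ
    rw [mem_nb] at hw
    obtain ⟨w', hw', hvw'⟩ := h v hv
    exact hwQ (hM v w w' hw hvw' ▸ hw')
  omega

section
open Classical

theorem contract_pm (W : SimpleGraph V) (hc : W.Connected) (hb : Bridgeless W)
    (M : SimpleGraph V) (hM : IsMat M) (hMW : M ≤ W)
    (P R Z : Finset V) (hPR : Disjoint P R) (hPZ : Disjoint P Z) (hRZ : Disjoint R Z)
    (hP : P.Nonempty) (hR : R.Nonempty)
    (hZ3 : ∀ z ∈ Z, dg W z = 3) (hZM : ∀ z ∈ Z, ∃ w ∈ Z, M.Adj z w) :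
    ∃ N : SimpleGraph ({z // z ∈ Z} ⊕ Bool), N ≤ cgr W P Z ∧ IsMat N ∧ ∀ v, ∃ w, N.Adj v w := by
  by_contra hno
  obtain ⟨A', O', hcard, hpar, hO, hdis⟩ := tutte_interface (cgr W P Z) hno
  let pull : Finset ({z // z ∈ Z} ⊕ Bool) → Finset V := fun Q => univ.filter (fun v => phi P Z v ∈ Q)
  have mem_pull : ∀ Q v, v ∈ pull Q ↔ phi P Z v ∈ Q := fun Q v => by
    simp only [pull, mem_filter, mem_univ, true_and]
  have hclosed : ∀ Q ∈ O', ∀ v ∈ pull Q, ∀ w, W.Adj v w → w ∈ pull Q ∨ w ∈ pull A' := by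
    intro Q hQ v hv w hvw
    rw [mem_pull] at hv
    rw [mem_pull, mem_pull]
    by_cases he : phi P Z v = phi P Z w
    · left; rw [← he]; exact hv
    · exact (hO Q hQ).2.2 _ hv _ ⟨he, v, w, rfl, rfl, hvw⟩
  -- the components inside Z
  let OZ := O'.filter (fun Q => Sum.inr true ∉ Q ∧ Sum.inr false ∉ Q)
  have mem_OZ : ∀ Q, Q ∈ OZ ↔ Q ∈ O' ∧ Sum.inr true ∉ Q ∧ Sum.inr false ∉ Q := fun Q => by
    simp only [OZ, mem_filter]
  have hpullZ : ∀ Q ∈ OZ, ∀ v ∈ pull Q, v ∈ Z := by
    intro Q hQ v hv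
    rw [mem_OZ] at hQ
    rw [mem_pull] at hv
    by_contra hvZ
    by_cases hvP : v ∈ P
    · rw [phi_P hvZ hvP] at hv; exact hQ.2.1 hv
    · rw [phi_R hvZ hvP] at hv; exact hQ.2.2 hv
  have hpullcard : ∀ Q ∈ OZ, (pull Q).card = Q.card := by
    intro Q hQ
    have hQ' := (mem_OZ Q).1 hQ
    apply Finset.card_bij (fun v _ => phi P Z v)
    · intro v hv; exact (mem_pull Q v).1 hv
    · intro a ha b hb hab
      rw [phi_Z (hpullZ Q hQ a ha), phi_Z (hpullZ Q hQ b hb)] at hab
      simpa using hab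
    · intro q hq
      rcases q with z | b
      · exact ⟨z.1, (mem_pull Q z.1).2 (by rw [phi_Z z.2]; exact hq), by rw [phi_Z z.2]⟩
      · exfalso
        cases b
        · exact hQ'.2.2 hq
        · exact hQ'.2.1 hq
  -- each such component has an M-edge into A'
  have hsel : ∀ Q ∈ OZ, ∃ a : {z // z ∈ Z} ⊕ Bool, (a ∈ A' ∧ a ≠ Sum.inr true ∧ a ≠ Sum.inr false) ∧
      ∃ v ∈ pull Q, ∃ z : {z // z ∈ Z}, a = Sum.inl z ∧ M.Adj v z.1 := by
    intro Q hQ
    by_contra hcon
    push Not at hcon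
    have h1 : (pull Q).card % 2 = 0 := by
      apply even_of_closed hM
      intro v hv
      have hvZ := hpullZ Q hQ v hv
      obtain ⟨w, hwZ, hvw⟩ := hZM v hvZ
      refine ⟨w, ?_, hvw⟩
      rcases hclosed Q ((mem_OZ Q).1 hQ).1 v hv w (hMW hvw) with h | h
      · exact h
      · exfalso
        rw [mem_pull, phi_Z hwZ] at h
        exact hcon (Sum.inl ⟨w, hwZ⟩) ⟨h, by simp, by simp⟩ v hv ⟨w, hwZ⟩ rfl hvw
    rw [hpullcard Q hQ] at h1
    have h2 := (hO Q ((mem_OZ Q).1 hQ).1).1
    rw [Nat.odd_iff] at h2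
    omega
  choose! sel hsel1 hsel2 using hsel
  have hinj : Set.InjOn sel (OZ : Set _) := by
    intro Q hQ Q' hQ' he
    rw [Finset.mem_coe] at hQ hQ'
    by_contra hne
    obtain ⟨v, hv, z, hz, hva⟩ := hsel2 Q hQ
    obtain ⟨v', hv', z', hz', hva'⟩ := hsel2 Q' hQ'
    rw [← he, hz, Sum.inl.injEq] at hz'
    subst hz'
    have : v = v' := hM _ v v' hva.symm hva'.symm
    subst this
    rw [mem_pull] at hv hv'
    exact (Finset.disjoint_left.1 (hdis Q ((mem_OZ Q).1 hQ).1 Q' ((mem_OZ Q').1 hQ').1 hne)) hv hv'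
  let AZ := A'.filter (fun a => a ≠ Sum.inr true ∧ a ≠ Sum.inr false)
  have hOZle : OZ.card ≤ AZ.card := by
    rw [← Finset.card_image_of_injOn hinj]
    apply Finset.card_le_card
    intro a ha
    rw [mem_image] at ha
    obtain ⟨Q, hQ, rfl⟩ := ha
    simp only [AZ, mem_filter]
    exact hsel1 Q hQ
  -- sets containing a given vertex
  have hone : ∀ x : {z // z ∈ Z} ⊕ Bool, (O'.filter (fun Q => x ∈ Q)).card ≤ 1 := by
    intro x
    rw [Finset.card_le_one]
    intro Q hQ Q' hQ'
    rw [mem_filter] at hQ hQ'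
    by_contra hne
    exact (Finset.disjoint_left.1 (hdis Q hQ.1 Q' hQ'.1 hne)) hQ.2 hQ'.2
  have hzero : ∀ x ∈ A', (O'.filter (fun Q => x ∈ Q)).card = 0 := by
    intro x hx
    rw [Finset.card_eq_zero, Finset.filter_eq_empty_iff]
    intro Q hQ hxQ
    exact (Finset.disjoint_left.1 (hO Q hQ).2.1) hxQ hx
  have hsplit : O'.card ≤ OZ.card + (O'.filter (fun Q => Sum.inr true ∈ Q)).card +
      (O'.filter (fun Q => Sum.inr false ∈ Q)).card := by
    have : O' ⊆ OZ ∪ (O'.filter (fun Q => Sum.inr true ∈ Q)) ∪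
        (O'.filter (fun Q => Sum.inr false ∈ Q)) := by
      intro Q hQ
      rw [mem_union, mem_union, mem_OZ, mem_filter, mem_filter]
      by_cases h1 : Sum.inr true ∈ Q
      · exact Or.inl (Or.inr ⟨hQ, h1⟩)
      · by_cases h2 : Sum.inr false ∈ Q
        · exact Or.inr ⟨hQ, h2⟩
        · exact Or.inl (Or.inl ⟨hQ, h1, h2⟩)
    refine (Finset.card_le_card this).trans ?_
    refine (Finset.card_union_le _ _).trans ?_
    have := Finset.card_union_le OZ (O'.filter (fun Q => Sum.inr true ∈ Q))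
    omega
  have ht1 := hone (Sum.inr true)
  have hf1 := hone (Sum.inr false)
  have hAZle : AZ.card ≤ A'.card := Finset.card_filter_le _ _
  have hAZlt : ∀ b : Bool, Sum.inr b ∈ A' → AZ.card < A'.card := by
    intro b hb
    apply Finset.card_lt_card
    refine ⟨Finset.filter_subset _ _, fun h => ?_⟩
    have := h hb
    simp only [AZ, mem_filter] at this
    cases b
    · exact this.2.2 rfl
    · exact this.2.1 rfl
  have htA : Sum.inr true ∉ A' := by
    intro h
    have h1 := hzero _ h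
    have h2 := hAZlt true h
    omega
  have hfA : Sum.inr false ∉ A' := by
    intro h
    have h1 := hzero _ h
    have h2 := hAZlt false h
    omega
  -- parity
  have hZeven : Z.card % 2 = 0 := even_of_closed hM Z (fun z hz => hZM z hz)
  have hcardV : Fintype.card ({z // z ∈ Z} ⊕ Bool) = Z.card + 2 := by
    rw [Fintype.card_sum, Fintype.card_bool, Fintype.card_coe]
  rw [hcardV] at hpar
  have hge : A'.card + 2 ≤ O'.card := by omega
  -- the set containing `inr true`
  have hcase : ∃ Qt ∈ O', Sum.inr true ∈ Qt ∧ Sum.inr false ∉ Qt := by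
    by_contra hcon
    push Not at hcon
    have hsub : (O'.filter (fun Q => Sum.inr true ∈ Q)) ⊆ (O'.filter (fun Q => Sum.inr false ∈ Q)) := by
      intro Q hQ
      rw [mem_filter] at hQ ⊢
      exact ⟨hQ.1, hcon Q hQ.1 hQ.2⟩
    have h2 : O'.card ≤ OZ.card + (O'.filter (fun Q => Sum.inr false ∈ Q)).card := by
      have : O' ⊆ OZ ∪ (O'.filter (fun Q => Sum.inr false ∈ Q)) := by
        intro Q hQ
        rw [mem_union, mem_OZ, mem_filter]
        by_cases h2 : Sum.inr false ∈ Q
        · exact Or.inr ⟨hQ, h2⟩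
        · refine Or.inl ⟨hQ, fun h1 => h2 (hcon Q hQ h1), h2⟩
      exact (Finset.card_le_card this).trans (Finset.card_union_le _ _)
    omega
  obtain ⟨Qt, hQtO, htQt, hfQt⟩ := hcase
  -- W-level counting
  let OW := OZ.image pull
  have hpullinj : Set.InjOn pull (OZ : Set _) := by
    intro Q hQ Q' hQ' he
    rw [Finset.mem_coe] at hQ hQ'
    by_contra hne
    have hQo := (hO Q ((mem_OZ Q).1 hQ).1).1
    have hpos : 0 < (pull Q).card := by
      rw [hpullcard Q hQ]; exact hQo.pos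
    obtain ⟨v, hv⟩ := Finset.card_pos.1 hpos
    have hv' : v ∈ pull Q' := he ▸ hv
    rw [mem_pull] at hv hv'
    exact (Finset.disjoint_left.1 (hdis Q ((mem_OZ Q).1 hQ).1 Q' ((mem_OZ Q').1 hQ').1 hne)) hv hv'
  have hOWcard : OW.card = OZ.card := Finset.card_image_of_injOn hpullinj
  have hpullA : (pull A').card = A'.card := by
    apply Finset.card_bij (fun v _ => phi P Z v)
    · intro v hv; exact (mem_pull A' v).1 hv
    · intro a ha b hb hab
      have haZ : a ∈ Z := by
        by_contra h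
        rw [mem_pull] at ha
        by_cases h2 : a ∈ P
        · rw [phi_P h h2] at ha; exact htA ha
        · rw [phi_R h h2] at ha; exact hfA ha
      rw [phi_Z haZ] at hab
      exact (phi_eq_inl hab.symm).symm
    · intro q hq
      rcases q with z | b
      · exact ⟨z.1, (mem_pull A' z.1).2 (by rw [phi_Z z.2]; exact hq), by rw [phi_Z z.2]⟩
      · exfalso
        cases b
        · exact hfA hq
        · exact htA hq
  have hAZ' : ∀ a ∈ pull A', a ∈ Z := by
    intro a ha
    by_contra h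
    rw [mem_pull] at ha
    by_cases h2 : a ∈ P
    · rw [phi_P h h2] at ha; exact htA ha
    · rw [phi_R h h2] at ha; exact hfA ha
  have hsumA : ∑ a ∈ pull A', dg W a = 3 * A'.card := by
    rw [Finset.sum_congr rfl (fun a ha => hZ3 a (hAZ' a ha)), Finset.sum_const, smul_eq_mul,
      hpullA, mul_comm]
  have hsumO : 3 * OZ.card ≤ ∑ Q ∈ OW, bd W Q := by
    rw [← hOWcard, mul_comm, ← smul_eq_mul, ← Finset.sum_const]
    apply Finset.sum_le_sum
    intro Q hQ
    rw [mem_image] at hQ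
    obtain ⟨Q', hQ', rfl⟩ := hQ
    apply bd_three hc hb
    · rw [hpullcard Q' hQ']; exact (hO Q' ((mem_OZ Q').1 hQ').1).1
    · intro v hv; exact hZ3 v (hpullZ Q' hQ' v hv)
    · intro h
      obtain ⟨x, hx⟩ := hP
      have : x ∈ pull Q' := h ▸ mem_univ x
      exact (Finset.disjoint_left.1 hPZ) hx (hpullZ Q' hQ' x this)
  have hW1 : ∀ Q ∈ OW, Disjoint Q (pull A') ∧ ∀ v ∈ Q, ∀ w, W.Adj v w → w ∈ Q ∨ w ∈ pull A' := by
    intro Q hQ
    rw [mem_image] at hQ
    obtain ⟨Q', hQ', rfl⟩ := hQ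
    refine ⟨?_, hclosed Q' ((mem_OZ Q').1 hQ').1⟩
    rw [Finset.disjoint_left]
    intro v hv hvA
    rw [mem_pull] at hv hvA
    exact (Finset.disjoint_left.1 (hO Q' ((mem_OZ Q').1 hQ').1).2.1) hv hvA
  have hW2 : ∀ Q ∈ OW, ∀ Q' ∈ OW, Q ≠ Q' → Disjoint Q Q' := by
    intro Q hQ Q1 hQ1 hne
    rw [mem_image] at hQ hQ1
    obtain ⟨Q', hQ', rfl⟩ := hQ
    obtain ⟨Q1', hQ1', rfl⟩ := hQ1
    rw [Finset.disjoint_left]
    intro v hv hv1
    rw [mem_pull] at hv hv1
    exact (Finset.disjoint_left.1 (hdis Q' ((mem_OZ Q').1 hQ').1 Q1' ((mem_OZ Q1').1 hQ1').1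
      (fun h => hne (by rw [h])))) hv hv1
  -- K = pull Qt is closed
  have hK : ∀ v ∈ pull Qt, ∀ w, W.Adj v w → w ∈ pull Qt := by
    intro v hv w hvw
    rcases hclosed Qt hQtO v hv w hvw with h | h
    · exact h
    · exfalso
      have hlt := bd_sum_lt W (pull A') OW hW1 hW2 w v h hvw.symm (by
        intro Q hQ hvQ
        rw [mem_image] at hQ
        obtain ⟨Q', hQ', rfl⟩ := hQ
        rw [mem_pull] at hv hvQ
        have hne : Qt ≠ Q' := by
          intro he
          rw [← he, mem_OZ] at hQ'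
          exact hQ'.2.1 htQt
        exact (Finset.disjoint_left.1 (hdis Qt hQtO Q' ((mem_OZ Q').1 hQ').1 hne)) hv hvQ)
      omega
  obtain ⟨x, hx⟩ := hP
  obtain ⟨y, hy⟩ := hR
  have hxK : x ∈ pull Qt := by
    rw [mem_pull, phi_P ((Finset.disjoint_left.1 hPZ) hx) hx]; exact htQt
  have hyK : y ∉ pull Qt := by
    rw [mem_pull, phi_R ((Finset.disjoint_left.1 hRZ) hy) (fun h => (Finset.disjoint_left.1 hPR) h hy)]
    exact hfQt
  obtain ⟨p⟩ := hc.preconnected x y
  have key : ∀ (a b : V) (_ : W.Walk a b), a ∈ pull Qt → b ∈ pull Qt := by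
    intro a b p
    induction p with
    | nil => exact fun h => h
    | cons h _ ih => exact fun ha => ih (hK _ ha _ h)
  exact hyK (key x y p hxK)

theorem contract (W : SimpleGraph V) (hc : W.Connected) (hb : Bridgeless W)
    (_hd : ∀ v, dg W v ≤ 3) (M : SimpleGraph V) (hMW : M ≤ W) (hM : IsMat M)
    (P R Z : Finset V) (hPR : Disjoint P R) (hPZ : Disjoint P Z) (hRZ : Disjoint R Z)
    (hall : ∀ v, v ∈ P ∨ v ∈ R ∨ v ∈ Z) (hP : P.Nonempty) (hR : R.Nonempty)
    (hZ3 : ∀ z ∈ Z, dg W z = 3) (hZM : ∀ z ∈ Z, ∃ w ∈ Z, M.Adj z w) :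
    ∃ N : SimpleGraph V, N ≤ W ∧ IsMat N ∧ ∃ p ∈ P, ∃ r ∈ R,
      ∀ v, (∃ w, N.Adj v w) ↔ (v ∈ Z ∨ v = p ∨ v = r) := by
  obtain ⟨N', hN', hNm, hNp⟩ := contract_pm W hc hb M hM hMW P R Z hPR hPZ hRZ hP hR hZ3 hZM
  have hR' : ∀ v, v ∉ Z → v ∉ P → v ∈ R := by
    intro v h1 h2
    rcases hall v with h | h | h
    · exact absurd h h2
    · exact h
    · exact absurd h h1
  obtain ⟨qt, hqt⟩ := hNp (Sum.inr true)
  obtain ⟨qf, hqf⟩ := hNp (Sum.inr false)
  -- choose the lifted edges
  have hchoice : ∃ p ∈ P, ∃ r ∈ R,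
      (∀ z : {z // z ∈ Z}, qt = Sum.inl z → W.Adj p z.1) ∧
      (qt = Sum.inr false → W.Adj p r) ∧
      (∀ z : {z // z ∈ Z}, qf = Sum.inl z → W.Adj r z.1) := by
    obtain ⟨_, a, b, ha, hb', hab⟩ := hN' hqt
    obtain ⟨_, a2, b2, ha2, hb2, hab2⟩ := hN' hqf
    have haP := (phi_eq_true ha).2
    rcases qt with z | c
    · -- qt in Z
      refine ⟨a, haP, a2, hR' a2 (phi_eq_false ha2).1 (phi_eq_false ha2).2, ?_, ?_, ?_⟩
      · intro z' hz'
        rw [Sum.inl.injEq] at hz'
        subst hz'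
        rw [← phi_eq_inl hb']; exact hab
      · intro h; simp at h
      · intro z' hz'
        subst hz'
        rw [← phi_eq_inl hb2]; exact hab2
    · cases c
      · have hbR := phi_eq_false hb'
        refine ⟨a, haP, b, hR' b hbR.1 hbR.2, ?_, fun _ => hab, ?_⟩
        · intro z' hz'; simp at hz'
        · intro z' hz'
          exfalso
          have : qf = Sum.inr true := hNm (Sum.inr false) qf (Sum.inr true) hqf hqt.symm
          rw [this] at hz'; simp at hz'
      · exact absurd rfl hqt.ne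
  obtain ⟨p, hp, r, hr, h1, h2, h3⟩ := hchoice
  have hpZ : p ∉ Z := (Finset.disjoint_left.1 hPZ) hp
  have hrZ : r ∉ Z := (Finset.disjoint_left.1 hRZ) hr
  have hpr : p ≠ r := fun h => (Finset.disjoint_left.1 hPR) hp (h ▸ hr)
  let rho : {z // z ∈ Z} ⊕ Bool → V := fun q => match q with
    | Sum.inl z => z.1
    | Sum.inr true => p
    | Sum.inr false => r
  have hrho : Function.Injective rho := by
    rintro (z | b) (z' | b') h
    · simp only [rho] at h
      rw [Subtype.ext h]
    · cases b' <;> simp only [rho] at h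
      · exact absurd (h ▸ z.2) hrZ
      · exact absurd (h ▸ z.2) hpZ
    · cases b <;> simp only [rho] at h
      · exact absurd (h ▸ z'.2) hrZ
      · exact absurd (h ▸ z'.2) hpZ
    · cases b <;> cases b' <;> simp only [rho] at h
      · rfl
      · exact absurd h.symm hpr
      · exact absurd h hpr
      · rfl
  have hadj : ∀ u' v', N'.Adj u' v' → W.Adj (rho u') (rho v') := by
    have hzz : ∀ z z' : {z // z ∈ Z}, N'.Adj (Sum.inl z) (Sum.inl z') → W.Adj z.1 z'.1 := by
      intro z z' h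
      obtain ⟨_, a, b, ha, hb', hab⟩ := hN' h
      rw [← phi_eq_inl ha, ← phi_eq_inl hb']; exact hab
    have htv : ∀ v', N'.Adj (Sum.inr true) v' → W.Adj p (rho v') := by
      intro v' h
      have he : v' = qt := hNm _ v' qt h hqt
      subst he
      rcases v' with z | b
      · exact h1 z rfl
      · cases b
        · exact h2 rfl
        · exact absurd rfl h.ne
    have hfv : ∀ v', N'.Adj (Sum.inr false) v' → W.Adj r (rho v') := by
      intro v' h
      rcases v' with z | b
      · have he : Sum.inl z = qf := hNm _ _ qf h hqf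
        exact h3 z he.symm
      · cases b
        · exact absurd rfl h.ne
        · exact (htv _ h.symm).symm
    intro u' v' h
    rcases u' with z | b
    · rcases v' with z' | b'
      · exact hzz z z' h
      · cases b'
        · exact (hfv _ h.symm).symm
        · exact (htv _ h.symm).symm
    · cases b
      · exact hfv v' h
      · exact htv v' h
  refine ⟨N'.map rho, ?_, ?_, p, hp, r, hr, ?_⟩
  · intro u v huv
    rw [SimpleGraph.map_adj'] at huv
    obtain ⟨_, u', v', h, rfl, rfl⟩ := huv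
    exact hadj u' v' h
  · intro v a b ha hb
    rw [SimpleGraph.map_adj'] at ha hb
    obtain ⟨_, u', a', h4, h5, h6⟩ := ha
    obtain ⟨_, u'', b', h7, h8, h9⟩ := hb
    have : u' = u'' := hrho (h5.trans h8.symm)
    subst this
    have : a' = b' := hNm u' a' b' h4 h7
    subst this
    exact h6.symm.trans h9
  · intro v
    constructor
    · rintro ⟨w, hw⟩
      rw [SimpleGraph.map_adj'] at hw
      obtain ⟨_, u', v', h, rfl, rfl⟩ := hw
      rcases u' with z | b
      · exact Or.inl z.2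
      · cases b
        · exact Or.inr (Or.inr rfl)
        · exact Or.inr (Or.inl rfl)
    · have key : ∀ q, ∃ w, (N'.map rho).Adj (rho q) w := by
        intro q
        obtain ⟨w, hw⟩ := hNp q
        exact ⟨rho w, by rw [SimpleGraph.map_adj']; exact ⟨fun h => hw.ne (hrho h), q, w, hw, rfl, rfl⟩⟩
      rintro (h | h | h)
      · exact key (Sum.inl ⟨v, h⟩)
      · subst h; exact key (Sum.inr true)
      · subst h; exact key (Sum.inr false)

end

end Pool.Agent.ThreeDec
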