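import Pool.Agent.ThreeDec.Charge
import Pool.Agent.ThreeDec.Contract

set_option autoImplicit false

/-! The step: a state whose distinguished tree misses a soft vertex can be improved. -/

namespace Pool.Agent.ThreeDec

open Finset

universe u
variable {V : Type u} [Fintype V]

lemma self_mem_comp (F : SimpleGraph V) (v : V) : v ∈ comp F v := by
  rw [mem_comp]

lemma comp_closed {F : SimpleGraph V} {v a b : V} (ha : a ∈ comp F v) (hab : F.Adj a b) :
    b ∈ comp F v := by
  rw [mem_comp] at *
  exact ha.trans hab.reachable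

/-- if `C` is closed and contains `v` then it contains the component of `v` -/
lemma comp_subset_of_closed {F : SimpleGraph V} {K : Finset V}
    (hK : ∀ v ∈ K, ∀ w, F.Adj v w → w ∈ K) {v : V} (hv : v ∈ K) : comp F v ⊆ K := by
  intro w hw
  rw [mem_comp] at hw
  obtain ⟨p⟩ := hw
  induction p with
  | nil => exact hv
  | cons h _ ih => exact ih (hK _ hv _ h)

section
open Classical

lemma ch_sdiff {F : SimpleGraph V} {K C : Finset V} (h : C ⊆ K) :
    ch F K = ch F C + ch F (K \ C) := by
  unfold ch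
  rw [add_comm, Finset.sum_sdiff h]

lemma sdiff_comp_closed {F : SimpleGraph V} {K : Finset V}
    (hK : ∀ v ∈ K, ∀ w, F.Adj v w → w ∈ K) (v : V) :
    ∀ a ∈ K \ comp F v, ∀ b, F.Adj a b → b ∈ K \ comp F v := by
  intro a ha b hab
  rw [mem_sdiff] at *
  refine ⟨hK a ha.1 b hab, fun hb => ha.2 ?_⟩
  exact comp_closed hb hab.symm

lemma closed_ch_nonneg {F : SimpleGraph V}
    (hcomps : ∀ v, (∀ w ∈ comp F v, dg F w = 2) ∨ ch F (comp F v) = 2) :
    ∀ n : ℕ, ∀ K : Finset V, K.card ≤ n → (∀ v ∈ K, ∀ w, F.Adj v w → w ∈ K) → 0 ≤ ch F K := by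
  intro n
  induction n with
  | zero =>
    intro K hK _
    have : K = ∅ := Finset.card_eq_zero.1 (by omega)
    subst this
    simp [ch]
  | succ n ih =>
    intro K hK hcl
    by_cases hne : K.Nonempty
    · obtain ⟨v, hv⟩ := hne
      have hsub := comp_subset_of_closed hcl hv
      rw [ch_sdiff hsub]
      have h2 : 0 ≤ ch F (K \ comp F v) := by
        apply ih _ _ (sdiff_comp_closed hcl v)
        have h3 : (K \ comp F v).card < K.card := by
          apply Finset.card_lt_card
          refine ⟨sdiff_subset, fun h => ?_⟩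
          have := h hv
          rw [mem_sdiff] at this
          exact this.2 (self_mem_comp F v)
        omega
      rcases hcomps v with h | h
      · have h4 : ch F (comp F v) = 0 := by
          unfold ch
          apply Finset.sum_eq_zero
          intro w hw
          rw [h w hw]; norm_num
        omega
      · omega
    · rw [Finset.not_nonempty_iff_eq_empty] at hne
      subst hne
      simp [ch]

/-- verification of the new state -/
theorem newstate {W M M' : SimpleGraph V} {x0 : V} (hS : State W M x0)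
    (hle : M' ≤ W) (hmat : IsMat M')
    (hconn : ∀ u v, ch (W \ M) (comp (W \ M) u) = 2 → (W \ M).Adj u v → (W \ M').Adj u v)
    (a b : V) (ha : a ∈ comp (W \ M) x0) (hb : b ∉ comp (W \ M) x0)
    (hda : dg (W \ M') a = dg (W \ M) a + 1)
    (hdb : (ch (W \ M) (comp (W \ M) b) = 2 ∧ dg (W \ M') b = dg (W \ M) b + 1) ∨
      (ch (W \ M) (comp (W \ M) b) ≠ 2 ∧ dg (W \ M') b = 1))
    (hdo : ∀ v, v ≠ a → v ≠ b → dg (W \ M') v = dg (W \ M) v) :
    State W M' x0 ∧ comp (W \ M) x0 ⊂ comp (W \ M') x0 := by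
  set F := W \ M with hF
  set F' := W \ M' with hF'
  have hab : a ≠ b := fun h => hb (h ▸ ha)
  -- tree components stay connected
  have hcc : ∀ u, ch F (comp F u) = 2 → comp F u ⊆ comp F' u := by
    intro u hu w hw
    rw [mem_comp] at hw ⊢
    obtain ⟨p⟩ := hw
    have key : ∀ (u w : V) (p : F.Walk u w), ch F (comp F u) = 2 → F'.Reachable u w := by
      intro u w p
      induction p with
      | nil => intro _; exact SimpleGraph.Reachable.refl _
      | @cons u v w h q ih =>
        intro hu
        have h1 : comp F v = comp F u := comp_eq_of_mem (by rw [mem_comp]; exact h.reachable)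
        have h2 : F'.Adj u v := hconn u v hu h
        exact h2.reachable.trans (ih (by rw [h1]; exact hu))
    exact key u w p hu
  -- the tree part of an F'-component
  have hK : ∀ v, ∀ w ∈ (comp F' v).filter (fun w => ch F (comp F w) = 2), ∀ y, F.Adj w y →
      y ∈ (comp F' v).filter (fun w => ch F (comp F w) = 2) := by
    intro v w hw y hwy
    rw [mem_filter] at hw ⊢
    refine ⟨comp_closed hw.1 (hconn w y hw.2 hwy), ?_⟩
    have h1 : comp F y = comp F w := comp_eq_of_mem (by rw [mem_comp]; exact hwy.reachable)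
    rw [h1]; exact hw.2
  -- old charge of an F'-component
  have hold : ∀ v, ∑ w ∈ comp F' v, ((2 : ℤ) - (dg F w : ℤ)) =
      ch F ((comp F' v).filter (fun w => ch F (comp F w) = 2)) := by
    intro v
    unfold ch
    rw [Finset.sum_filter]
    apply Finset.sum_congr rfl
    intro w _
    by_cases h : ∑ v ∈ comp F w, ((2 : ℤ) - (dg F v : ℤ)) = 2
    · rw [if_pos h]
    · rw [if_neg h]
      rcases hS.comps w with h1 | h1
      · rw [h1 w (self_mem_comp F w)]; norm_num
      · exact absurd h1 h
  -- new charge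
  have hsum : ∀ C : Finset V, ch F' C = ∑ w ∈ C, ((2 : ℤ) - (dg F w : ℤ)) +
      (if a ∈ C then (-1 : ℤ) else 0) + (if b ∈ C then ((dg F b : ℤ) - (dg F' b : ℤ)) else 0) := by
    intro C
    have h1 : ∀ w ∈ C, ((2 : ℤ) - (dg F' w : ℤ)) = ((2 : ℤ) - (dg F w : ℤ)) +
        (if w = a then (-1 : ℤ) else 0) + (if w = b then ((dg F b : ℤ) - (dg F' b : ℤ)) else 0) := by
      intro w _
      by_cases h1 : w = a
      · subst h1
        rw [if_pos rfl, if_neg hab, hda]; push_cast; ring
      · by_cases h2 : w = b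
        · subst h2
          rw [if_pos rfl, if_neg h1]; ring
        · rw [if_neg h1, if_neg h2, hdo w h1 h2]; ring
    unfold ch
    rw [Finset.sum_congr rfl h1, Finset.sum_add_distrib, Finset.sum_add_distrib,
      Finset.sum_ite_eq', Finset.sum_ite_eq']
  have hx0 : ch F (comp F x0) = 2 := hS.root
  have hXsub : comp F x0 ⊆ comp F' x0 := hcc x0 hx0
  have hevenF' : ∀ v, Even (ch F' (comp F' v)) := fun v =>
    ch_even _ (fun c hc w hw => comp_closed hc hw)
  have hleF' : ∀ v, ch F' (comp F' v) ≤ 2 := fun v => ch_comp_le F' v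
  have hnn : ∀ K : Finset V, (∀ v ∈ K, ∀ w, F.Adj v w → w ∈ K) → 0 ≤ ch F K := fun K hK =>
    closed_ch_nonneg hS.comps K.card K le_rfl hK
  -- the component of x0
  have hroot : b ∈ comp F' x0 ∧ ch F' (comp F' x0) = 2 := by
    set K := (comp F' x0).filter (fun w => ch F (comp F w) = 2) with hKdef
    have hKc := hK x0
    rw [← hKdef] at hKc
    have hx0K : x0 ∈ K := by
      rw [hKdef, mem_filter]; exact ⟨self_mem_comp F' x0, hx0⟩
    have hXK : comp F x0 ⊆ K := comp_subset_of_closed hKc hx0K
    have h1 := ch_sdiff (F := F) hXK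
    have hcl1 := sdiff_comp_closed hKc x0
    have h2 : Even (ch F (K \ comp F x0)) := ch_even _ hcl1
    have h3 := hnn _ hcl1
    have h4 := hsum (comp F' x0)
    rw [hold x0, ← hKdef, if_pos (hXsub ha), h1, hx0] at h4
    have h5 := hevenF' x0
    have h6 := hleF' x0
    by_cases hbm : b ∈ comp F' x0
    · refine ⟨hbm, ?_⟩
      rw [if_pos hbm] at h4
      rcases hdb with ⟨hb1, hb2⟩ | ⟨hb1, hb2⟩
      · have hbK : b ∈ K \ comp F x0 := by
          rw [mem_sdiff, hKdef, mem_filter]; exact ⟨⟨hbm, hb1⟩, hb⟩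
        have h7 := ch_sdiff (F := F) (comp_subset_of_closed hcl1 hbK)
        have h8 := hnn _ (sdiff_comp_closed hcl1 b)
        rw [hb2] at h4
        push_cast at h4
        omega
      · have hdb2 : dg F b = 2 := by
          rcases hS.comps b with h | h
          · exact h b (self_mem_comp F b)
          · exact absurd h hb1
        rw [hb2, hdb2] at h4
        push_cast at h4
        omega
    · exfalso
      rw [if_neg hbm] at h4
      obtain ⟨m, hm⟩ := h2
      obtain ⟨m', hm'⟩ := h5
      omega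
  refine ⟨⟨hle, hmat, ?_, hroot.2⟩, ?_⟩
  · intro v
    by_cases hv : v ∈ comp F' x0
    · right
      rw [comp_eq_of_mem hv]; exact hroot.2
    · have hne : ∀ c, c ∈ comp F' x0 → c ∉ comp F' v := by
        intro c hc hcv
        apply hv
        rw [← comp_eq_of_mem hc, comp_eq_of_mem hcv]
        exact self_mem_comp F' v
      have hav := hne a (hXsub ha)
      have hbv := hne b hroot.1
      set K := (comp F' v).filter (fun w => ch F (comp F w) = 2) with hKdef
      have hKc := hK v
      rw [← hKdef] at hKc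
      have h4 := hsum (comp F' v)
      rw [hold v, ← hKdef, if_neg hav, if_neg hbv, add_zero, add_zero] at h4
      by_cases hKe : K.Nonempty
      · right
        obtain ⟨w, hw⟩ := hKe
        have h7 := ch_sdiff (F := F) (comp_subset_of_closed hKc hw)
        have h8 := hnn _ (sdiff_comp_closed hKc w)
        have h9 : ch F (comp F w) = 2 := by
          rw [hKdef, mem_filter] at hw; exact hw.2
        have h6 := hleF' v
        change ch F' (comp F' v) = 2
        omega
      · left
        intro w hw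
        have hw2 : ch F (comp F w) ≠ 2 := by
          intro h
          exact hKe ⟨w, mem_filter.2 ⟨hw, h⟩⟩
        have hwa : w ≠ a := fun h => hav (h ▸ hw)
        have hwb : w ≠ b := fun h => hbv (h ▸ hw)
        rw [hdo w hwa hwb]
        rcases hS.comps w with h | h
        · exact h w (self_mem_comp F w)
        · exact absurd h hw2
  · exact ⟨hXsub, fun h => hb (h hroot.1)⟩


lemma dg_cov {W M : SimpleGraph V} (hle : M ≤ W) (hmat : IsMat M) {v w : V} (h : M.Adj v w) :
    dg (W \ M) v + 1 = dg W v := by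
  have h1 : nb (W \ M) v = (nb W v).erase w := by
    ext u
    rw [mem_erase, mem_nb, mem_nb, SimpleGraph.sdiff_adj]
    constructor
    · rintro ⟨h1, h2⟩
      exact ⟨fun h3 => h2 (h3 ▸ h), h1⟩
    · rintro ⟨h1, h2⟩
      exact ⟨h2, fun h3 => h1 (hmat v u w h3 h)⟩
  have h2 : w ∈ nb W v := by rw [mem_nb]; exact hle h
  unfold dg
  rw [h1]
  exact Finset.card_erase_add_one h2

lemma dg_unc {W M : SimpleGraph V} {v : V} (h : ∀ w, ¬ M.Adj v w) :
    dg (W \ M) v = dg W v := by
  have h1 : nb (W \ M) v = nb W v := by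
    ext u
    rw [mem_nb, mem_nb, SimpleGraph.sdiff_adj]
    exact ⟨fun h1 => h1.1, fun h1 => ⟨h1, h u⟩⟩
  unfold dg
  rw [h1]

/-- same covering status, same degree -/
lemma dg_same {W M M' : SimpleGraph V} (hle : M ≤ W) (hmat : IsMat M) (hle' : M' ≤ W)
    (hmat' : IsMat M') {v : V} (h : (∃ w, M.Adj v w) ↔ (∃ w, M'.Adj v w)) :
    dg (W \ M') v = dg (W \ M) v := by
  by_cases hc : ∃ w, M.Adj v w
  · obtain ⟨w, hw⟩ := hc
    obtain ⟨w', hw'⟩ := h.1 ⟨w, hw⟩
    have h1 := dg_cov hle hmat hw
    have h2 := dg_cov hle' hmat' hw'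
    omega
  · have h1 := dg_unc (W := W) (M := M) (v := v) (fun w hw => hc ⟨w, hw⟩)
    have h2 := dg_unc (W := W) (M := M') (v := v) (fun w hw => hc (h.2 ⟨w, hw⟩))
    omega

theorem step (W : SimpleGraph V) (hc : W.Connected) (hb : Bridgeless W)
    (hd : ∀ v, dg W v = 2 ∨ dg W v = 3) (M : SimpleGraph V) (x0 s : V) (hS : State W M x0)
    (hs : dg W s = 2) (hsx : s ∉ comp (W \ M) x0) :
    ∃ M' : SimpleGraph V, State W M' x0 ∧ comp (W \ M) x0 ⊂ comp (W \ M') x0 := by
  have hMW := hS.le
  have hmat := hS.mat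
  have hTX : ∀ x ∈ comp (W \ M) x0, ch (W \ M) (comp (W \ M) x) = 2 := by
    intro x hx
    rw [comp_eq_of_mem hx]; exact hS.root
  have hTadj : ∀ u v, (W \ M).Adj u v → ch (W \ M) (comp (W \ M) u) = 2 →
      ch (W \ M) (comp (W \ M) v) = 2 := by
    intro u v huv hu
    rw [comp_eq_of_mem (F := W \ M) (v := u) (w := v) (by rw [mem_comp]; exact huv.reachable)]
    exact hu
  have hnT : ∀ v, ch (W \ M) (comp (W \ M) v) ≠ 2 → dg (W \ M) v = 2 := by
    intro v hv
    rcases hS.comps v with h | h
    · exact h v (self_mem_comp _ v)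
    · exact absurd h hv
  by_cases h1 : ∃ x ∈ comp (W \ M) x0, ∃ y, M.Adj x y ∧
      ch (W \ M) (comp (W \ M) y) = 2 ∧ y ∉ comp (W \ M) x0
  · -- case 1 : delete a matching edge between two trees
    obtain ⟨x, hx, y, hxy, hTy, hyX⟩ := h1
    have hM'M : ∀ a b, (M \ SimpleGraph.fromEdgeSet {s(x, y)}).Adj a b → M.Adj a b :=
      fun a b h => h.1
    have hle' : M \ SimpleGraph.fromEdgeSet {s(x, y)} ≤ W := fun a b h => hMW h.1
    have hmat' : IsMat (M \ SimpleGraph.fromEdgeSet {s(x, y)}) :=
      fun v a b ha hb => hmat v a b ha.1 hb.1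
    have hxu : ∀ w, ¬ (M \ SimpleGraph.fromEdgeSet {s(x, y)}).Adj x w := by
      intro w hw
      have : w = y := hmat x w y hw.1 hxy
      subst this
      exact hw.2 (by rw [SimpleGraph.fromEdgeSet_adj]; exact ⟨rfl, hxy.ne⟩)
    have hyu : ∀ w, ¬ (M \ SimpleGraph.fromEdgeSet {s(x, y)}).Adj y w := by
      intro w hw
      have : w = x := hmat y w x hw.1 hxy.symm
      subst this
      exact hw.2 (by rw [SimpleGraph.fromEdgeSet_adj]; exact ⟨Sym2.eq_swap, hxy.symm.ne⟩)
    refine ⟨M \ SimpleGraph.fromEdgeSet {s(x, y)}, ?_⟩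
    apply newstate hS hle' hmat' ?_ x y hx hyX ?_ ?_ ?_
    · intro u v _ huv
      exact ⟨huv.1, fun h => huv.2 h.1⟩
    · rw [dg_unc hxu, dg_cov hMW hmat hxy]
    · left
      exact ⟨hTy, by rw [dg_unc hyu, dg_cov hMW hmat hxy.symm]⟩
    · intro v hvx hvy
      apply dg_same hMW hmat hle' hmat'
      constructor
      · rintro ⟨w, hw⟩
        refine ⟨w, hw, ?_⟩
        rw [SimpleGraph.fromEdgeSet_adj]
        rintro ⟨h2, _⟩
        rw [Set.mem_singleton_iff, Sym2.eq_iff] at h2
        rcases h2 with ⟨h2, _⟩ | ⟨h2, _⟩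
        · exact hvx h2
        · exact hvy h2
      · rintro ⟨w, hw⟩
        exact ⟨w, hw.1⟩
  · -- case 2 : contraction
    push Not at h1
    set X := comp (W \ M) x0 with hX
    let T : V → Prop := fun v => ch (W \ M) (comp (W \ M) v) = 2
    let P : Finset V := univ.filter (fun v => v ∈ X ∨ (¬ T v ∧ ∃ x ∈ X, M.Adj v x))
    let Z : Finset V := univ.filter (fun v => ¬ T v ∧ ∃ w, M.Adj v w ∧ ¬ T w)
    let R : Finset V := univ.filter (fun v => v ∉ P ∧ v ∉ Z)
    have memP : ∀ v, v ∈ P ↔ v ∈ X ∨ (¬ T v ∧ ∃ x ∈ X, M.Adj v x) := fun v => by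
      simp only [P, mem_filter, mem_univ, true_and]
    have memZ : ∀ v, v ∈ Z ↔ ¬ T v ∧ ∃ w, M.Adj v w ∧ ¬ T w := fun v => by
      simp only [Z, mem_filter, mem_univ, true_and]
    have memR : ∀ v, v ∈ R ↔ v ∉ P ∧ v ∉ Z := fun v => by
      simp only [R, mem_filter, mem_univ, true_and]
    have hXT : ∀ x ∈ X, T x := hTX
    have hPZ : Disjoint P Z := by
      rw [Finset.disjoint_left]
      intro v hv hvZ
      rw [memP] at hv; rw [memZ] at hvZ
      obtain ⟨hnTv, w, hvw, hnTw⟩ := hvZ
      rcases hv with hv | ⟨_, x, hx, hvx⟩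
      · exact hnTv (hXT v hv)
      · exact hnTw (hmat v x w hvx hvw ▸ hXT x hx)
    have hPR : Disjoint P R := by
      rw [Finset.disjoint_left]
      intro v hv hvR
      rw [memR] at hvR; exact hvR.1 hv
    have hRZ : Disjoint R Z := by
      rw [Finset.disjoint_left]
      intro v hv hvZ
      rw [memR] at hv; exact hv.2 hvZ
    have hall : ∀ v, v ∈ P ∨ v ∈ R ∨ v ∈ Z := by
      intro v
      by_cases h1 : v ∈ P
      · exact Or.inl h1
      · by_cases h2 : v ∈ Z
        · exact Or.inr (Or.inr h2)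
        · exact Or.inr (Or.inl ((memR v).2 ⟨h1, h2⟩))
    have hPne : P.Nonempty := ⟨x0, (memP x0).2 (Or.inl (self_mem_comp _ x0))⟩
    have hsun : ¬ T s → ∀ w, ¬ M.Adj s w := by
      intro hTs w hsw
      have h2 := dg_cov hMW hmat hsw
      have h3 := hnT s hTs
      omega
    have hRne : R.Nonempty := by
      refine ⟨s, (memR s).2 ⟨?_, ?_⟩⟩
      · rw [memP]
        rintro (h | ⟨h2, x, _, hsx'⟩)
        · exact hsx h
        · exact hsun h2 x hsx'
      · rw [memZ]
        rintro ⟨h2, w, hw, _⟩
        exact hsun h2 w hw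
    have hZ3 : ∀ z ∈ Z, dg W z = 3 := by
      intro z hz
      rw [memZ] at hz
      obtain ⟨h2, w, hw, _⟩ := hz
      have h3 := dg_cov hMW hmat hw
      have h4 := hnT z h2
      omega
    have hZM : ∀ z ∈ Z, ∃ w ∈ Z, M.Adj z w := by
      intro z hz
      rw [memZ] at hz
      obtain ⟨h2, w, hw, hTw⟩ := hz
      exact ⟨w, (memZ w).2 ⟨hTw, z, hw.symm, h2⟩, hw⟩
    obtain ⟨N, hNW, hNmat, p, hp, r, hr, hcov⟩ :=
      contract W hc hb (fun v => by rcases hd v with h | h <;> omega) M hMW hmat P R Z hPR hPZ hRZ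
        hall hPne hRne hZ3 hZM
    have hpr : p ≠ r := fun h => (Finset.disjoint_left.1 hPR) hp (h ▸ hr)
    -- facts on p
    have hpF : ¬ T p ∧ ∃ x ∈ X, M.Adj p x := by
      rcases (memP p).1 hp with hpX | h
      · exfalso
        obtain ⟨q, hq⟩ := (hcov p).2 (Or.inr (Or.inl rfl))
        have hqC := (hcov q).1 ⟨p, hq.symm⟩
        have hqp : q ≠ p := hq.symm.ne
        by_cases hMpq : M.Adj p q
        · rcases hqC with hqZ | hqp' | hqr
          · obtain ⟨_, w, hw, hTw⟩ := (memZ q).1 hqZ
            exact hTw (hmat q p w hMpq.symm hw ▸ hXT p hpX)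
          · exact hqp hqp'
          · subst hqr
            by_cases hTq : T q
            · have := h1 p hpX q hMpq hTq
              exact ((memR q).1 hr).1 ((memP q).2 (Or.inl this))
            · exact ((memR q).1 hr).1 ((memP q).2 (Or.inr ⟨hTq, p, hpX, hMpq.symm⟩))
        · have hFpq : (W \ M).Adj p q := ⟨hNW hq, hMpq⟩
          have hqX : q ∈ X := comp_closed hpX hFpq
          have hqP : q ∈ P := (memP q).2 (Or.inl hqX)
          rcases hqC with hqZ | hqp' | hqr
          · exact (Finset.disjoint_left.1 hPZ) hqP hqZ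
          · exact hqp hqp'
          · subst hqr
            exact (Finset.disjoint_left.1 hPR) hqP hr
      · exact h
    obtain ⟨hTp, xp, hxp, hpxp⟩ := hpF
    -- facts on r
    have hTr : ¬ T r := by
      intro hTr
      obtain ⟨q, hq⟩ := (hcov r).2 (Or.inr (Or.inr rfl))
      have hqC := (hcov q).1 ⟨r, hq.symm⟩
      have hqr : q ≠ r := hq.symm.ne
      have hrX : r ∉ X := fun h => ((memR r).1 hr).1 ((memP r).2 (Or.inl h))
      by_cases hMrq : M.Adj r q
      · rcases hqC with hqZ | hqp | hqr'
        · obtain ⟨_, w, hw, hTw⟩ := (memZ q).1 hqZ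
          exact hTw (hmat q r w hMrq.symm hw ▸ hTr)
        · subst hqp
          have : r = xp := hmat q r xp hMrq.symm hpxp
          exact hrX (this ▸ hxp)
        · exact hqr hqr'
      · have hFrq : (W \ M).Adj r q := ⟨hNW hq, hMrq⟩
        have hTq : T q := hTadj r q hFrq hTr
        rcases hqC with hqZ | hqp | hqr'
        · exact ((memZ q).1 hqZ).1 hTq
        · subst hqp; exact hTp hTq
        · exact hqr hqr'
    let C : V → Prop := fun v => v ∈ Z ∨ v = p ∨ v = r
    have hCT : ∀ v, C v → ¬ T v := by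
      rintro v (h | h | h)
      · exact ((memZ v).1 h).1
      · rw [h]; exact hTp
      · rw [h]; exact hTr
    let M' : SimpleGraph V :=
      { Adj := fun a b => N.Adj a b ∨ (M.Adj a b ∧ ¬ C a ∧ ¬ C b)
        symm := by
          constructor
          rintro a b (h | ⟨h, h2, h3⟩)
          · exact Or.inl h.symm
          · exact Or.inr ⟨h.symm, h3, h2⟩
        loopless := by
          constructor
          rintro a (h | ⟨h, _, _⟩)
          · exact N.irrefl h
          · exact M.irrefl h }
    have hM'adj : ∀ a b, M'.Adj a b ↔ N.Adj a b ∨ (M.Adj a b ∧ ¬ C a ∧ ¬ C b) := fun a b => Iff.rfl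
    have hNC : ∀ a b, N.Adj a b → C a ∧ C b := fun a b h =>
      ⟨(hcov a).1 ⟨b, h⟩, (hcov b).1 ⟨a, h.symm⟩⟩
    have hle' : M' ≤ W := by
      intro a b h
      rw [hM'adj] at h
      rcases h with h | h
      · exact hNW h
      · exact hMW h.1
    have hmat' : IsMat M' := by
      intro v a b ha hb
      rw [hM'adj] at ha hb
      rcases ha with ha | ha <;> rcases hb with hb | hb
      · exact hNmat v a b ha hb
      · exact absurd (hNC v a ha).1 hb.2.1
      · exact absurd (hNC v b hb).1 ha.2.1
      · exact hmat v a b ha.1 hb.1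
    have hC' : ∀ v, C v → ∃ w, M'.Adj v w := by
      intro v hv
      obtain ⟨w, hw⟩ := (hcov v).2 hv
      exact ⟨w, Or.inl hw⟩
    have hunc : ∀ v w, ¬ C v → M.Adj v w → C w → ∀ u, ¬ M'.Adj v u := by
      intro v w hv hvw hw u hu
      rw [hM'adj] at hu
      rcases hu with hu | ⟨hu, _, hu2⟩
      · exact hv (hNC v u hu).1
      · exact hu2 (hmat v u w hu hvw ▸ hw)
    have hxpC : ¬ C xp := fun h => hCT xp h (hXT xp hxp)
    have hconn : ∀ u v, ch (W \ M) (comp (W \ M) u) = 2 → (W \ M).Adj u v → (W \ M').Adj u v := by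
      intro u v hu huv
      refine ⟨huv.1, fun h => ?_⟩
      rw [hM'adj] at h
      rcases h with h | h
      · exact hCT u (hNC u v h).1 hu
      · exact huv.2 h.1
    refine ⟨M', ?_⟩
    by_cases hrc : ∃ rs, M.Adj r rs
    · obtain ⟨rs, hrs⟩ := hrc
      have hTrs : T rs := by
        by_contra h
        exact ((memR r).1 hr).2 ((memZ r).2 ⟨hTr, rs, hrs, h⟩)
      have hrsX : rs ∉ X := by
        intro h
        exact ((memR r).1 hr).1 ((memP r).2 (Or.inr ⟨hTr, rs, h, hrs⟩))
      have hrsC : ¬ C rs := fun h => hCT rs h hTrs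
      apply newstate hS hle' hmat' hconn xp rs hxp hrsX ?_ ?_ ?_
      · rw [dg_unc (hunc xp p hxpC hpxp.symm (Or.inr (Or.inl rfl))), dg_cov hMW hmat hpxp.symm]
      · left
        exact ⟨hTrs, by rw [dg_unc (hunc rs r hrsC hrs.symm (Or.inr (Or.inr rfl))),
          dg_cov hMW hmat hrs.symm]⟩
      · intro v hva hvb
        apply dg_same hMW hmat hle' hmat'
        constructor
        · rintro ⟨w, hw⟩
          by_cases hv : C v
          · exact hC' v hv
          · refine ⟨w, Or.inr ⟨hw, hv, ?_⟩⟩
            rintro (h | h | h)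
            · obtain ⟨hTw, w', hw', hTw'⟩ := (memZ w).1 h
              have h5 : v = w' := hmat w v w' hw.symm hw'
              exact hv (Or.inl ((memZ v).2 ⟨h5 ▸ hTw', w, hw, hTw⟩))
            · subst h
              exact hva (hmat w v xp hw.symm hpxp)
            · subst h
              exact hvb (hmat w v rs hw.symm hrs)
        · rintro ⟨w, hw⟩
          rw [hM'adj] at hw
          rcases hw with hw | hw
          · rcases (hNC v w hw).1 with h | h | h
            · obtain ⟨_, w', hw', _⟩ := (memZ v).1 h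
              exact ⟨w', hw'⟩
            · subst h; exact ⟨xp, hpxp⟩
            · subst h; exact ⟨rs, hrs⟩
          · exact ⟨w, hw.1⟩
    · have hru : ∀ w, ¬ M.Adj r w := fun w hw => hrc ⟨w, hw⟩
      have hrX : r ∉ X := fun h => hTr (hXT r h)
      apply newstate hS hle' hmat' hconn xp r hxp hrX ?_ ?_ ?_
      · rw [dg_unc (hunc xp p hxpC hpxp.symm (Or.inr (Or.inl rfl))), dg_cov hMW hmat hpxp.symm]
      · right
        obtain ⟨w, hw⟩ := hC' r (Or.inr (Or.inr rfl))
        have h5 := dg_cov hle' hmat' hw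
        have h6 := dg_unc (W := W) hru
        have h7 := hnT r hTr
        exact ⟨hTr, by omega⟩
      · intro v hva hvb
        apply dg_same hMW hmat hle' hmat'
        constructor
        · rintro ⟨w, hw⟩
          by_cases hv : C v
          · exact hC' v hv
          · refine ⟨w, Or.inr ⟨hw, hv, ?_⟩⟩
            rintro (h | h | h)
            · obtain ⟨hTw, w', hw', hTw'⟩ := (memZ w).1 h
              have h5 : v = w' := hmat w v w' hw.symm hw'
              exact hv (Or.inl ((memZ v).2 ⟨h5 ▸ hTw', w, hw, hTw⟩))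
            · subst h
              exact hva (hmat w v xp hw.symm hpxp)
            · subst h
              exact hru v hw.symm
        · rintro ⟨w, hw⟩
          rw [hM'adj] at hw
          rcases hw with hw | hw
          · rcases (hNC v w hw).1 with h | h | h
            · obtain ⟨_, w', hw', _⟩ := (memZ v).1 h
              exact ⟨w', hw'⟩
            · subst h; exact ⟨xp, hpxp⟩
            · exact absurd h hvb
          · exact ⟨w, hw.1⟩

end

end Pool.Agent.ThreeDec
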