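import Pool.Agent.ThreeDec.InitState
import Pool.Agent.ThreeDec.Step

set_option autoImplicit false

/-! Theorem A: in a connected bridgeless graph with degrees 2 and 3 and at least two vertices of
degree 2 there is a matching whose removal leaves one tree component containing all vertices of
degree 2, all other components being cycles. -/

namespace Pool.Agent.ThreeDec

open Finset

universe u
variable {V : Type u} [Fintype V]

theorem theoremA (W : SimpleGraph V) (hc : W.Connected) (hb : Bridgeless W)
    (hd : ∀ v, dg W v = 2 ∨ dg W v = 3) (s0 s1 : V) (h0 : dg W s0 = 2) (h1 : dg W s1 = 2)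
    (hne : s0 ≠ s1) :
    ∃ M : SimpleGraph V, State W M s0 ∧ ∀ s, dg W s = 2 → s ∈ comp (W \ M) s0 := by
  have key : ∀ n : ℕ, ∀ M : SimpleGraph V, State W M s0 →
      Fintype.card V - (comp (W \ M) s0).card ≤ n →
      ∃ M : SimpleGraph V, State W M s0 ∧ ∀ s, dg W s = 2 → s ∈ comp (W \ M) s0 := by
    intro n
    induction n with
    | zero =>
      intro M hM hn
      refine ⟨M, hM, fun s _ => ?_⟩
      have h1 : (comp (W \ M) s0).card ≤ Fintype.card V := Finset.card_le_univ _
      have h2 : (comp (W \ M) s0) = univ := by
        rw [← Finset.card_eq_iff_eq_univ]; omega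
      rw [h2]; exact mem_univ s
    | succ n ih =>
      intro M hM hn
      by_cases h : ∀ s, dg W s = 2 → s ∈ comp (W \ M) s0
      · exact ⟨M, hM, h⟩
      · push Not at h
        obtain ⟨s, hs, hsx⟩ := h
        obtain ⟨M', hM', hlt⟩ := step W hc hb hd M s0 s hM hs hsx
        refine ih M' hM' ?_
        have h1 := Finset.card_lt_card hlt
        have h2 : (comp (W \ M') s0).card ≤ Fintype.card V := Finset.card_le_univ _
        omega
  obtain ⟨M, hM⟩ := initial_state W hc hb hd s0 s1 h0 h1 hne
  exact key _ M hM le_rfl

end Pool.Agent.ThreeDec
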