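import Pool.Agent.ThreeDec.Charge2
import Pool.Agent.ThreeDec.Deg
import Pool.Agent.ThreeDec.TheoremA
import Pool.Agent.ThreeDec.LemmaN

set_option autoImplicit false

/-! (N2) A reduced graph with degrees 2 and 3 has two vertices of degree 2; Theorem B. -/

namespace Pool.Agent.ThreeDec

open Finset

universe u
variable {V : Type u} [Fintype V]

/-- the subgraph of `W` induced on a component of `F ≤ W` is connected -/
lemma induce_comp_connected {W F : SimpleGraph V} (hF : F ≤ W) (v : V) :
    (W.induce ((comp F v : Finset V) : Set V)).Connected := by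
  classical
  have h1 : ((comp F v : Finset V) : Set V) = (F.connectedComponentMk v).supp := by
    ext w
    rw [Finset.mem_coe, mem_comp, SimpleGraph.ConnectedComponent.mem_supp_iff,
      SimpleGraph.ConnectedComponent.eq]
    exact ⟨fun h => h.symm, fun h => h.symm⟩
  rw [h1]
  have h2 : (F.induce (F.connectedComponentMk v).supp).Connected :=
    ((F.connectedComponentMk v).maximal_connected_induce_supp).1
  refine h2.mono ?_
  intro a b hab
  exact hF hab

/-- Lemma N for a set outside which every vertex has two neighbours outside. -/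
lemma not_reduced_of_compl (W : SimpleGraph V) (hc : W.Connected) (hd : ∀ v, dg W v ≤ 3)
    (Y0 : Finset V) (hY0 : (W.induce (Y0 : Set V)).Connected) (hsoft : ∀ v, dg W v ≤ 2 → v ∈ Y0)
    (hex : ∃ v, v ∉ Y0)
    (h2 : ∀ v, v ∉ Y0 → ∃ a b, a ≠ b ∧ W.Adj v a ∧ W.Adj v b ∧ a ∉ Y0 ∧ b ∉ Y0) :
    ¬ Reduced W := by
  classical
  refine lemmaN W hc hd Y0 hY0 hsoft ?_
  have hL : ((Y0 : Set V)ᶜ) = ((Y0ᶜ : Finset V) : Set V) := by
    rw [Finset.coe_compl]
  rw [hL]
  obtain ⟨v, hv⟩ := hex
  refine not_acyclic_of_min_deg W (Y0ᶜ) ⟨v, Finset.mem_compl.2 hv⟩ ?_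
  intro v hv
  obtain ⟨a, b, hab, ha, hb, haY, hbY⟩ := h2 v (Finset.mem_compl.1 hv)
  have hsub : ({a, b} : Finset V) ⊆ (nb W v).filter (fun w => w ∈ Y0ᶜ) := by
    intro w hw
    rcases Finset.mem_insert.1 hw with h | h
    · subst h
      exact Finset.mem_filter.2 ⟨mem_nb.2 ha, Finset.mem_compl.2 haY⟩
    · rw [Finset.mem_singleton] at h
      subst h
      exact Finset.mem_filter.2 ⟨mem_nb.2 hb, Finset.mem_compl.2 hbY⟩
  have h3 := Finset.card_le_card hsub
  rw [Finset.card_pair hab] at h3
  convert h3 using 3

/-- a reduced graph with degrees 2 and 3 has two vertices of degree 2 -/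
theorem two_softs (W : SimpleGraph V) (hc : W.Connected) (hd : ∀ v, dg W v = 2 ∨ dg W v = 3)
    (hr : Reduced W) : ∃ s0 s1, dg W s0 = 2 ∧ dg W s1 = 2 ∧ s0 ≠ s1 := by
  classical
  by_contra hcon
  push Not at hcon
  -- a vertex v0 such that all other vertices have degree 3
  obtain ⟨v0, hv0⟩ : ∃ v0 : V, ∀ v, v ≠ v0 → dg W v = 3 := by
    by_cases h : ∃ s, dg W s = 2
    · obtain ⟨s, hs⟩ := h
      refine ⟨s, fun v hv => ?_⟩
      rcases hd v with h2 | h3
      · exact absurd (hcon v s h2 hs) hv
      · exact h3
    · push Not at h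
      obtain ⟨v0⟩ := hc.nonempty
      exact ⟨v0, fun v _ => (hd v).resolve_left (h v)⟩
  have hYc : (W.induce (({v0} : Finset V) : Set V)).Connected := by
    rw [Finset.coe_singleton]
    have : Subsingleton (({v0} : Set V) : Type u) := by
      refine ⟨fun a b => ?_⟩
      apply Subtype.ext
      rw [a.2, b.2]
    have : Nonempty (({v0} : Set V) : Type u) := ⟨⟨v0, rfl⟩⟩
    rw [SimpleGraph.connected_iff]
    refine ⟨fun a b => ?_, inferInstance⟩
    rw [Subsingleton.elim a b]
  refine not_reduced_of_compl W hc (fun v => by rcases hd v with h | h <;> omega) {v0} hYc ?_ ?_ ?_ hr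
  · intro v hv
    by_contra hne
    rw [Finset.mem_singleton] at hne
    have := hv0 v hne
    omega
  · -- there is another vertex: v0 has a neighbour
    have h1 : 0 < (nb W v0).card := by
      have h := hd v0
      unfold dg at h
      omega
    obtain ⟨w, hw⟩ := Finset.card_pos.1 h1
    rw [mem_nb] at hw
    exact ⟨w, by rw [Finset.mem_singleton]; exact hw.ne'⟩
  · intro v hv
    rw [Finset.mem_singleton] at hv
    have h3 := hv0 v hv
    have h4 : 1 < ((nb W v).erase v0).card := by
      have h5 := Finset.pred_card_le_card_erase (s := nb W v) (a := v0)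
      unfold dg at h3
      omega
    obtain ⟨a, ha, b, hb, hab⟩ := Finset.one_lt_card.1 h4
    rw [Finset.mem_erase, mem_nb] at ha hb
    exact ⟨a, b, hab, ha.2, hb.2, by rw [Finset.mem_singleton]; exact ha.1,
      by rw [Finset.mem_singleton]; exact hb.1⟩

/-! ### Theorem B -/

theorem theoremB (W : SimpleGraph V) (hc : W.Connected) (hb : Bridgeless W)
    (hd : ∀ v, dg W v = 2 ∨ dg W v = 3) (hr : Reduced W) :
    ∃ M : SimpleGraph V, M ≤ W ∧ IsMat M ∧ (W \ M).IsTree := by
  classical
  obtain ⟨s0, s1, h0, h1, hne⟩ := two_softs W hc hd hr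
  obtain ⟨M, hS, hsoft⟩ := theoremA W hc hb hd s0 s1 h0 h1 hne
  refine ⟨M, hS.le, hS.mat, ?_⟩
  have hMW := hS.le
  -- all vertices lie in the distinguished component
  have hall : ∀ v, v ∈ comp (W \ M) s0 := by
    by_contra hcon
    push Not at hcon
    refine not_reduced_of_compl W hc (fun v => by rcases hd v with h | h <;> omega)
      (comp (W \ M) s0) (induce_comp_connected (sdiff_le : W \ M ≤ W) s0) ?_ hcon ?_ hr
    · intro v hv
      refine hsoft v ?_
      rcases hd v with h | h <;> omega
    · intro v hv
      -- the component of v is 2-regular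
      have h2 : ∀ w ∈ comp (W \ M) v, dg (W \ M) w = 2 := by
        rcases hS.comps v with h | h
        · exact h
        · exfalso
          -- some vertex has degree at most one
          have h3 : ∃ w ∈ comp (W \ M) v, dg (W \ M) w ≤ 1 := by
            by_contra h4
            push Not at h4
            have h5 : ch (W \ M) (comp (W \ M) v) ≤ 0 := by
              unfold ch
              refine Finset.sum_nonpos ?_
              intro w hw
              have := h4 w hw
              have h6 : (2 : ℤ) ≤ (dg (W \ M) w : ℤ) := by exact_mod_cast this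
              linarith
            omega
          obtain ⟨w, hw, hw1⟩ := h3
          have h7 := dg_sdiff_add hMW w
          have h8 := dg_mat_le hS.mat w
          have h9 : dg W w = 2 := by
            rcases hd w with h | h <;> omega
          have h10 := hsoft w h9
          rw [mem_comp] at h10 hw
          exact hv (mem_comp.2 (h10.trans hw.symm))
      have hv2 : dg (W \ M) v = 2 := h2 v (mem_comp.2 (SimpleGraph.Reachable.refl v))
      have h4 : 1 < (nb (W \ M) v).card := by
        unfold dg at hv2
        omega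
      obtain ⟨a, ha, b, hb', hab⟩ := Finset.one_lt_card.1 h4
      rw [mem_nb] at ha hb'
      refine ⟨a, b, hab, ha.1, hb'.1, ?_, ?_⟩
      · intro h
        rw [mem_comp] at h
        exact hv (mem_comp.2 (h.trans ha.symm.reachable))
      · intro h
        rw [mem_comp] at h
        exact hv (mem_comp.2 (h.trans hb'.symm.reachable))
  have hconn : (W \ M).Connected := by
    rw [SimpleGraph.connected_iff]
    refine ⟨fun a b => ?_, ⟨s0⟩⟩
    exact (mem_comp.1 (hall a)).symm.trans (mem_comp.1 (hall b))
  refine isTree_of_ch hconn ?_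
  have huniv : comp (W \ M) s0 = univ := by
    ext v
    exact ⟨fun _ => Finset.mem_univ v, fun _ => hall v⟩
  rw [← huniv]
  exact hS.root

end Pool.Agent.ThreeDec
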