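import Pool.Agent.ThreeDec.Deg
import Pool.Agent.ThreeDec.TheoremB

set_option autoImplicit false

/-! (R) splitting at bridges. -/

namespace Pool.Agent.ThreeDec

open Finset

universe u

section aux

variable {V : Type u}

/-- a connected graph on `A`, a connected graph on the complement and one edge between them -/
lemma connected_glue (H : SimpleGraph V) (A : Set V) (HA : SimpleGraph A)
    (HB : SimpleGraph (Aᶜ : Set V)) (hA : HA.Connected) (hB : HB.Connected)
    (h1 : ∀ x y : A, HA.Adj x y → H.Adj x y) (h2 : ∀ x y : (Aᶜ : Set V), HB.Adj x y → H.Adj x y)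
    (a b : V) (ha : a ∈ A) (hb : b ∈ Aᶜ) (hab : H.Adj a b) : H.Connected := by
  have key : ∀ v, H.Reachable a v := by
    intro v
    by_cases hv : v ∈ A
    · exact (hA.preconnected ⟨a, ha⟩ ⟨v, hv⟩).map
        (⟨fun x => (x : V), fun {x y} h => h1 x y h⟩ : HA →g H)
    · have h3 := (hB.preconnected ⟨b, hb⟩ ⟨v, hv⟩).map
        (⟨fun x => (x : V), fun {x y} h => h2 x y h⟩ : HB →g H)
      exact hab.reachable.trans h3
  exact { preconnected := fun x y => (key x).symm.trans (key y), nonempty := ⟨a⟩ }

/-- adding one edge joins at most two components -/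
lemma reach_two (J J' : SimpleGraph V) (a b : V)
    (hstep : ∀ x y, J.Adj x y → J'.Adj x y ∨ (x = a ∧ y = b) ∨ (x = b ∧ y = a)) (x y : V)
    (h : J.Reachable x y) (hx : J'.Reachable a x ∨ J'.Reachable b x) :
    J'.Reachable a y ∨ J'.Reachable b y := by
  obtain ⟨p⟩ := h
  induction p with
  | nil => exact hx
  | @cons u v w huv p ih =>
    refine ih ?_
    rcases hstep u v huv with h | ⟨_, h⟩ | ⟨_, h⟩
    · rcases hx with hx | hx
      · exact Or.inl (hx.trans h.reachable)
      · exact Or.inr (hx.trans h.reachable)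
    · exact Or.inr (by rw [h])
    · exact Or.inl (by rw [h])

/-- reachability inside a closed set -/
lemma reach_induce (J J' : SimpleGraph V) (hle : J' ≤ J) (S : Set V)
    (hcl : ∀ x ∈ S, ∀ y, J'.Adj x y → y ∈ S) (x : V) (hx : x ∈ S) (y : V)
    (h : J'.Reachable x y) : ∃ hy : y ∈ S, (J.induce S).Reachable ⟨x, hx⟩ ⟨y, hy⟩ := by
  obtain ⟨p⟩ := h
  induction p with
  | nil => exact ⟨hx, SimpleGraph.Reachable.refl _⟩
  | @cons u v w huv p ih =>
    have hv : v ∈ S := hcl u hx v huv
    obtain ⟨hy, h⟩ := ih hv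
    refine ⟨hy, ?_⟩
    have : (J.induce S).Adj ⟨u, hx⟩ ⟨v, hv⟩ := hle huv
    exact this.reachable.trans h

end aux

variable {V : Type u} [Fintype V]

lemma ch_of_isTree {F : SimpleGraph V} (hF : F.IsTree) : ch F univ = 2 := by
  classical
  have hdeg : ∀ v, dg F v = F.degree v := by
    intro v
    have h1 : nb F v = F.neighborFinset v := by
      ext w
      simp
    rw [dg, h1]
    rfl
  have hsum := F.sum_degrees_eq_twice_card_edges
  have hch : ch F univ = 2 * (Fintype.card V : ℤ) - ∑ v, (F.degree v : ℤ) := by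
    unfold ch
    rw [Finset.sum_sub_distrib]
    simp only [hdeg]
    simp [Finset.card_univ]
    ring
  have hs2 : (∑ v, (F.degree v : ℤ)) = 2 * (F.edgeFinset.card : ℤ) := by
    exact_mod_cast hsum
  have h3 := hF.card_edgeFinset
  rw [hch, hs2]
  omega

/-- pushing a graph on a subset to the whole vertex set -/
def push (A : Set V) (D : SimpleGraph A) : SimpleGraph V :=
  D.map (Function.Embedding.subtype (· ∈ A))

lemma push_adj {A : Set V} {D : SimpleGraph A} {x y : V} :
    (push A D).Adj x y ↔ ∃ (hx : x ∈ A) (hy : y ∈ A), D.Adj ⟨x, hx⟩ ⟨y, hy⟩ := by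
  unfold push
  rw [SimpleGraph.map_adj]
  constructor
  · rintro ⟨a, b, h, rfl, rfl⟩
    exact ⟨a.2, b.2, h⟩
  · rintro ⟨hx, hy, h⟩
    exact ⟨⟨x, hx⟩, ⟨y, hy⟩, h, rfl, rfl⟩

lemma dg_push_mem {A : Set V} [Fintype A] (D : SimpleGraph A) (x : V) (hx : x ∈ A) :
    dg (push A D) x = dg D ⟨x, hx⟩ := by
  classical
  unfold dg
  have h : nb (push A D) x = (nb D ⟨x, hx⟩).map (Function.Embedding.subtype (· ∈ A)) := by
    ext y
    rw [mem_nb, push_adj, Finset.mem_map]
    constructor
    · rintro ⟨_, hy, h⟩
      exact ⟨⟨y, hy⟩, mem_nb.mpr h, rfl⟩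
    · rintro ⟨y', hy', rfl⟩
      exact ⟨hx, y'.2, mem_nb.mp hy'⟩
  rw [h, Finset.card_map]

lemma dg_push_notMem {A : Set V} (D : SimpleGraph A) (x : V) (hx : x ∉ A) :
    dg (push A D) x = 0 := by
  unfold dg
  rw [Finset.card_eq_zero, Finset.eq_empty_iff_forall_notMem]
  intro y hy
  rw [mem_nb, push_adj] at hy
  exact hx hy.1

lemma dg_induce_le {A : Set V} [Fintype A] (J : SimpleGraph V) (x : A) :
    dg (J.induce A) x ≤ dg J x := by
  classical
  rw [← dg_push_mem (J.induce A) x x.2]
  unfold dg
  apply Finset.card_le_card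
  intro y hy
  rw [mem_nb, push_adj] at hy
  obtain ⟨_, _, h⟩ := hy
  exact mem_nb.mpr h

/-- `Reduced` is inherited by the side of a bridge -/
lemma reduced_side (J : SimpleGraph V) (hd : ∀ v, dg J v ≤ 3) (hr : Reduced J) (A : Set V)
    [Fintype A] (hB : (J.induce (Aᶜ : Set V)).Connected) (a b : V) (ha : a ∈ A) (hb : b ∈ Aᶜ)
    (hab : J.Adj a b) : Reduced (J.induce A) := by
  classical
  intro D hD hne hdeg hcon
  refine hr (push A D) ?_ ?_ ?_ ?_
  · intro x y h
    rw [push_adj] at h
    obtain ⟨hx, hy, h⟩ := h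
    exact hD h
  · intro h
    apply hne
    ext x y
    simp only [SimpleGraph.bot_adj, iff_false]
    intro h2
    have h3 : (push A D).Adj x y := push_adj.mpr ⟨x.2, y.2, h2⟩
    rw [h] at h3
    exact h3
  · intro v
    by_cases hv : v ∈ A
    · rw [dg_push_mem D v hv]
      rcases hdeg ⟨v, hv⟩ with h | ⟨h, h'⟩
      · exact Or.inl h
      · refine Or.inr ⟨h, ?_⟩
        have h1 := dg_induce_le J (⟨v, hv⟩ : A)
        have h2 := hd v
        simp only at h1
        omega
    · exact Or.inl (dg_push_notMem D v hv)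
  · refine connected_glue (J \ push A D) A (J.induce A \ D) (J.induce (Aᶜ : Set V)) hcon hB
      ?_ ?_ a b ha hb ?_
    · intro x y h
      refine ⟨h.1, fun h2 => h.2 ?_⟩
      rw [push_adj] at h2
      obtain ⟨_, _, h2⟩ := h2
      exact h2
    · intro x y h
      refine ⟨h, fun h2 => ?_⟩
      rw [push_adj] at h2
      exact x.2 h2.1
    · refine ⟨hab, fun h2 => ?_⟩
      rw [push_adj] at h2
      obtain ⟨_, h3, _⟩ := h2
      exact hb h3

/-- gluing the two solutions at a bridge -/
lemma glue_sides (J : SimpleGraph V) (A : Set V) (a b : V) (ha : a ∈ A) (hb : b ∈ Aᶜ)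
    (hab : J.Adj a b) (honly : ∀ x ∈ A, ∀ y ∈ Aᶜ, J.Adj x y → x = a ∧ y = b)
    (MA : SimpleGraph A) (MB : SimpleGraph (Aᶜ : Set V)) (hMA : MA ≤ J.induce A)
    (hMB : MB ≤ J.induce (Aᶜ : Set V)) (hmA : IsMat MA) (hmB : IsMat MB)
    (tA : (J.induce A \ MA).IsTree) (tB : (J.induce (Aᶜ : Set V) \ MB).IsTree) :
    ∃ M : SimpleGraph V, M ≤ J ∧ IsMat M ∧ (J \ M).IsTree := by
  classical
  let _ : Fintype A := Fintype.ofFinite _
  let _ : Fintype (Aᶜ : Set V) := Fintype.ofFinite _
  let M : SimpleGraph V := push A MA ⊔ push Aᶜ MB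
  have hMadj : ∀ x y, M.Adj x y ↔ (push A MA).Adj x y ∨ (push Aᶜ MB).Adj x y := fun x y => Iff.rfl
  have hdgA : ∀ x : A, dg (J \ M) x = dg (J.induce A \ MA) x + (if (x : V) = a then 1 else 0) := by
    intro x
    have h1 : nb (J \ M) x = nb (push A (J.induce A \ MA)) x ∪ (if (x : V) = a then {b} else ∅) := by
      ext y
      rw [mem_union, mem_nb, mem_nb, push_adj, SimpleGraph.sdiff_adj, hMadj, push_adj, push_adj]
      constructor
      · rintro ⟨h1, h2⟩
        by_cases hy : y ∈ A
        · left
          exact ⟨x.2, hy, h1, fun h3 => h2 (Or.inl ⟨x.2, hy, h3⟩)⟩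
        · right
          obtain ⟨h3, h4⟩ := honly x x.2 y hy h1
          rw [if_pos h3, h4]
          exact mem_singleton_self _
      · rintro (⟨_, hy, h1⟩ | h1)
        · refine ⟨h1.1, ?_⟩
          rintro (⟨_, _, h2⟩ | ⟨h2, _, _⟩)
          · exact h1.2 h2
          · exact h2 x.2
        · split_ifs at h1 with hxa
          · rw [mem_singleton] at h1
            subst h1
            refine ⟨by rw [hxa]; exact hab, ?_⟩
            rintro (⟨_, h2, _⟩ | ⟨h2, _, _⟩)
            · exact hb h2
            · exact h2 x.2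
          · exact absurd h1 (by simp)
    unfold dg at *
    rw [h1, card_union_of_disjoint]
    · congr 1
      · exact dg_push_mem (J.induce A \ MA) x x.2
      · split_ifs <;> simp
    · rw [Finset.disjoint_left]
      intro y hy1 hy2
      rw [mem_nb, push_adj] at hy1
      obtain ⟨_, hy, _⟩ := hy1
      split_ifs at hy2 with hxa
      · rw [mem_singleton] at hy2
        subst hy2
        exact hb hy
      · exact absurd hy2 (by simp)
  have hdgB : ∀ x : (Aᶜ : Set V), dg (J \ M) x =
      dg (J.induce (Aᶜ : Set V) \ MB) x + (if (x : V) = b then 1 else 0) := by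
    intro x
    have h1 : nb (J \ M) x = nb (push Aᶜ (J.induce (Aᶜ : Set V) \ MB)) x ∪
        (if (x : V) = b then {a} else ∅) := by
      ext y
      rw [mem_union, mem_nb, mem_nb, push_adj, SimpleGraph.sdiff_adj, hMadj, push_adj, push_adj]
      constructor
      · rintro ⟨h1, h2⟩
        by_cases hy : y ∈ A
        · right
          obtain ⟨h3, h4⟩ := honly y hy x x.2 h1.symm
          rw [if_pos h4, h3]
          exact mem_singleton_self _
        · left
          exact ⟨x.2, hy, h1, fun h3 => h2 (Or.inr ⟨x.2, hy, h3⟩)⟩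
      · rintro (⟨_, hy, h1⟩ | h1)
        · refine ⟨h1.1, ?_⟩
          rintro (⟨h2, _, _⟩ | ⟨_, _, h2⟩)
          · exact x.2 h2
          · exact h1.2 h2
        · split_ifs at h1 with hxb
          · rw [mem_singleton] at h1
            subst h1
            refine ⟨by rw [hxb]; exact hab.symm, ?_⟩
            rintro (⟨h2, _, _⟩ | ⟨_, h2, _⟩)
            · exact x.2 h2
            · exact h2 ha
          · exact absurd h1 (by simp)
    unfold dg at *
    rw [h1, card_union_of_disjoint]
    · congr 1
      · exact dg_push_mem (J.induce (Aᶜ : Set V) \ MB) x x.2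
      · split_ifs <;> simp
    · rw [Finset.disjoint_left]
      intro y hy1 hy2
      rw [mem_nb, push_adj] at hy1
      obtain ⟨_, hy, _⟩ := hy1
      split_ifs at hy2 with hxb
      · rw [mem_singleton] at hy2
        subst hy2
        exact hy ha
      · exact absurd hy2 (by simp)
  refine ⟨M, ?_, ?_, ?_⟩
  · intro x y h
    rcases (hMadj x y).mp h with h | h
    · rw [push_adj] at h
      obtain ⟨_, _, h⟩ := h
      exact hMA h
    · rw [push_adj] at h
      obtain ⟨_, _, h⟩ := h
      exact hMB h
  · intro v x y hx hy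
    rcases (hMadj v x).mp hx with hx | hx <;> rcases (hMadj v y).mp hy with hy | hy <;>
      rw [push_adj] at hx hy <;> obtain ⟨hv1, hx1, hx⟩ := hx <;> obtain ⟨hv2, hy1, hy⟩ := hy
    · exact congrArg Subtype.val (hmA _ _ _ hx hy)
    · exact absurd hv1 hv2
    · exact absurd hv2 hv1
    · exact congrArg Subtype.val (hmB _ _ _ hx hy)
  · have hcon : (J \ M).Connected := by
      refine connected_glue (J \ M) A (J.induce A \ MA) (J.induce (Aᶜ : Set V) \ MB) tA.connected
        tB.connected ?_ ?_ a b ha hb ?_
      · intro x y h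
        refine ⟨h.1, fun h2 => ?_⟩
        rcases (hMadj _ _).mp h2 with h2 | h2
        · rw [push_adj] at h2
          obtain ⟨_, _, h2⟩ := h2
          exact h.2 h2
        · rw [push_adj] at h2
          exact h2.1 x.2
      · intro x y h
        refine ⟨h.1, fun h2 => ?_⟩
        rcases (hMadj _ _).mp h2 with h2 | h2
        · rw [push_adj] at h2
          exact x.2 h2.1
        · rw [push_adj] at h2
          obtain ⟨_, _, h2⟩ := h2
          exact h.2 h2
      · refine ⟨hab, fun h2 => ?_⟩
        rcases (hMadj _ _).mp h2 with h2 | h2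
        · rw [push_adj] at h2
          exact hb h2.2.1
        · rw [push_adj] at h2
          exact h2.1 ha
    apply isTree_of_ch hcon
    have e1 := ch_of_isTree tA
    have e2 := ch_of_isTree tB
    unfold ch at e1 e2 ⊢
    have hsplit : ∑ v : V, ((2 : ℤ) - (dg (J \ M) v : ℤ)) =
        ∑ x : A, ((2 : ℤ) - (dg (J \ M) x : ℤ)) + ∑ x : (Aᶜ : Set V), ((2 : ℤ) - (dg (J \ M) x : ℤ)) := by
      have h1 := Fintype.sum_subtype_add_sum_subtype (fun v => v ∈ A) (fun v : V => ((2 : ℤ) - (dg (J \ M) v : ℤ)))
      rw [← h1]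
      exact congrArg₂ (· + ·) (Finset.sum_congr (by ext; simp) (fun _ _ => rfl))
        (Finset.sum_congr (by ext; simp) (fun _ _ => rfl))
    rw [hsplit]
    have s1 : ∑ x : A, ((2 : ℤ) - (dg (J \ M) x : ℤ)) = 1 := by
      have h1 : ∀ x : A, ((2 : ℤ) - (dg (J \ M) x : ℤ)) =
          ((2 : ℤ) - (dg (J.induce A \ MA) x : ℤ)) - (if x = ⟨a, ha⟩ then 1 else 0) := by
        intro x
        rw [hdgA x]
        by_cases hx : (x : V) = a
        · rw [if_pos hx, if_pos (Subtype.ext hx)]; push_cast; ring
        · rw [if_neg hx, if_neg (fun h => hx (congrArg Subtype.val h))]; push_cast; ring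
      rw [Finset.sum_congr rfl (fun x _ => h1 x), Finset.sum_sub_distrib, e1]
      simp
    have s2 : ∑ x : (Aᶜ : Set V), ((2 : ℤ) - (dg (J \ M) x : ℤ)) = 1 := by
      have h1 : ∀ x : (Aᶜ : Set V), ((2 : ℤ) - (dg (J \ M) x : ℤ)) =
          ((2 : ℤ) - (dg (J.induce (Aᶜ : Set V) \ MB) x : ℤ)) - (if x = ⟨b, hb⟩ then 1 else 0) := by
        intro x
        rw [hdgB x]
        by_cases hx : (x : V) = b
        · rw [if_pos hx, if_pos (Subtype.ext hx)]; push_cast; ring
        · rw [if_neg hx, if_neg (fun h => hx (congrArg Subtype.val h))]; push_cast; ring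
      rw [Finset.sum_congr rfl (fun x _ => h1 x), Finset.sum_sub_distrib, e2]
      simp
    rw [s1, s2]
    norm_num

/-- the induction -/
lemma theoremR_aux : ∀ (n : ℕ) (V : Type u) [Fintype V] (J : SimpleGraph V),
    Fintype.card V ≤ n → J.Connected → (∀ v, dg J v ≤ 3) → Reduced J →
    ∃ M : SimpleGraph V, M ≤ J ∧ IsMat M ∧ (J \ M).IsTree := by
  intro n
  induction n with
  | zero =>
    intro V _ J hn hc _ _
    exfalso
    obtain ⟨v⟩ := hc.nonempty
    have := Fintype.card_pos_iff.mpr ⟨v⟩
    omega
  | succ n ih =>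
    intro V _ J hn hc hd hr
    classical
    by_cases hb : Bridgeless J
    · by_cases hone : ∃ v, dg J v ≤ 1
      · -- a single vertex
        obtain ⟨v, hv⟩ := hone
        have hbot : ∀ w, w = v := by
          by_contra hcon
          push Not at hcon
          obtain ⟨w, hw⟩ := hcon
          -- a neighbour of v
          obtain ⟨p⟩ := hc.preconnected v w
          cases p with
          | nil => exact hw rfl
          | @cons _ x _ hvx p =>
            have h1 := hb v x hvx
            obtain ⟨q⟩ := h1
            cases q with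
            | nil => exact hvx.ne rfl
            | @cons _ y _ hvy q =>
              rw [SimpleGraph.sdiff_adj, SimpleGraph.fromEdgeSet_adj] at hvy
              have hxy : y ≠ x := by
                rintro rfl
                exact hvy.2 ⟨rfl, hvx.ne⟩
              have h2 : 1 < dg J v := by
                unfold dg
                rw [Finset.one_lt_card]
                exact ⟨x, mem_nb.mpr hvx, y, mem_nb.mpr hvy.1, hxy.symm⟩
              omega
        refine ⟨⊥, bot_le, ?_, ?_⟩
        · intro x a b h
          exact absurd h (by simp)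
        · rw [sdiff_bot]
          refine ⟨hc, ?_⟩
          intro x p hp
          have h3 : p.length = 0 := by
            cases p with
            | nil => rfl
            | @cons _ y _ hxy p =>
              exact absurd ((hbot x).trans (hbot y).symm) hxy.ne
          have h4 := hp.three_le_length
          omega
      · push Not at hone
        refine theoremB J hc hb (fun v => ?_) hr
        have h1 := hone v
        have h2 := hd v
        omega
    · unfold Bridgeless at hb
      push Not at hb
      obtain ⟨a, b, hab, hnr⟩ := hb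
      set J' := J \ SimpleGraph.fromEdgeSet {s(a, b)} with hJ'
      have hle : J' ≤ J := sdiff_le
      let A : Set V := {v | J'.Reachable a v}
      have ha : a ∈ A := SimpleGraph.Reachable.refl _
      have hbA : b ∈ Aᶜ := hnr
      have hstep : ∀ x y, J.Adj x y → J'.Adj x y ∨ (x = a ∧ y = b) ∨ (x = b ∧ y = a) := by
        intro x y h
        by_cases h2 : s(x, y) = s(a, b)
        · right
          rw [Sym2.eq_iff] at h2
          exact h2
        · left
          rw [hJ', SimpleGraph.sdiff_adj, SimpleGraph.fromEdgeSet_adj]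
          exact ⟨h, fun h3 => h2 h3.1⟩
      have hclA : ∀ x ∈ A, ∀ y, J'.Adj x y → y ∈ A := fun x hx y hxy =>
        SimpleGraph.Reachable.trans hx hxy.reachable
      have hclB : ∀ x ∈ Aᶜ, ∀ y, J'.Adj x y → y ∈ Aᶜ := fun x hx y hxy hy =>
        hx (SimpleGraph.Reachable.trans hy hxy.symm.reachable)
      have honly : ∀ x ∈ A, ∀ y ∈ Aᶜ, J.Adj x y → x = a ∧ y = b := by
        intro x hx y hy hxy
        rcases hstep x y hxy with h | h | h
        · exact absurd (hclA x hx y h) hy
        · exact h
        · exfalso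
          rw [h.1] at hx
          exact hbA hx
      have hreach : ∀ y, J'.Reachable a y ∨ J'.Reachable b y := by
        intro y
        exact reach_two J J' a b hstep a y (hc.preconnected a y)
          (Or.inl (SimpleGraph.Reachable.refl _))
      have hconA : (J.induce A).Connected := by
        have h1 : ∀ x : A, (J.induce A).Reachable ⟨a, ha⟩ x := by
          intro x
          obtain ⟨_, h⟩ := reach_induce J J' hle A hclA a ha x x.2
          exact h
        exact { preconnected := fun x y => (h1 x).symm.trans (h1 y), nonempty := ⟨⟨a, ha⟩⟩ }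
      have hconB : (J.induce (Aᶜ : Set V)).Connected := by
        have h1 : ∀ x : (Aᶜ : Set V), (J.induce (Aᶜ : Set V)).Reachable ⟨b, hbA⟩ x := by
          intro x
          obtain ⟨_, h⟩ := reach_induce J J' hle Aᶜ hclB b hbA x ((hreach x).resolve_left x.2)
          exact h
        exact { preconnected := fun x y => (h1 x).symm.trans (h1 y), nonempty := ⟨⟨b, hbA⟩⟩ }
      let _ : Fintype A := Fintype.ofFinite _
      let _ : Fintype (Aᶜ : Set V) := Fintype.ofFinite _
      have hcA : Fintype.card A ≤ n := by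
        have : Fintype.card A < Fintype.card V := Fintype.card_subtype_lt (x := b) hbA
        omega
      have hcB : Fintype.card (Aᶜ : Set V) ≤ n := by
        have : Fintype.card (Aᶜ : Set V) < Fintype.card V :=
          Fintype.card_subtype_lt (x := a) (fun h => h ha)
        omega
      obtain ⟨MA, hMA, hmA, tA⟩ := ih A (J.induce A) hcA hconA
        (fun v => (dg_induce_le J v).trans (hd v))
        (reduced_side J hd hr A hconB a b ha hbA hab)
      obtain ⟨MB, hMB, hmB, tB⟩ := ih (Aᶜ : Set V) (J.induce (Aᶜ : Set V)) hcB hconB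
        (fun v => (dg_induce_le J v).trans (hd v))
        (reduced_side J hd hr Aᶜ (by rw [compl_compl]; exact hconA) b a hbA
          (by rw [compl_compl]; exact ha) hab.symm)
      exact glue_sides J A a b ha hbA hab honly MA MB hMA hMB hmA hmB tA tB

theorem theoremR (J : SimpleGraph V) (hc : J.Connected) (hd : ∀ v, dg J v ≤ 3) (hr : Reduced J) :
    ∃ M : SimpleGraph V, M ≤ J ∧ IsMat M ∧ (J \ M).IsTree :=
  theoremR_aux _ V J le_rfl hc hd hr

end Pool.Agent.ThreeDec
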