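import Pool.Agent.ThreeDec.Defs
import Pool.Agent.ThreeDec.Split

set_option autoImplicit false

namespace Pool.Agent.ThreeDec

open Finset

lemma dg_eq_ncard {V : Type*} [Fintype V] (G : SimpleGraph V) (v : V) :
    dg G v = (G.neighborSet v).ncard := by
  classical
  have h : G.neighborSet v = ((nb G v : Finset V) : Set V) := by
    ext w
    simp
  rw [h, Set.ncard_coe_finset]
  rfl

lemma dg_sdiff_add_f {V : Type*} [Fintype V] {G C : SimpleGraph V} (h : C ≤ G) (v : V) :
    dg (G \ C) v + dg C v = dg G v := by
  classical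
  rw [dg_eq_ncard, dg_eq_ncard, dg_eq_ncard]
  have e : (G \ C).neighborSet v = G.neighborSet v \ C.neighborSet v := by
    ext x
    simp
  rw [e]
  exact Set.ncard_sdiff_add_ncard_of_subset (fun x hx => h hx) (Set.toFinite _)

/-- the last step: from `theoremR` (for the type `V`) to the frozen statement -/
theorem final_of (V : Type) [Fintype V] [DecidableEq V] (G : SimpleGraph V) [DecidableRel G.Adj]
    (hR : ∀ J : SimpleGraph V, J.Connected → (∀ v, dg J v ≤ 3) → Reduced J →
      ∃ M : SimpleGraph V, M ≤ J ∧ IsMat M ∧ (J \ M).IsTree)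
    (h3 : G.IsRegularOfDegree 3) (hc : G.Connected) :
      ∃ T : SimpleGraph V, T ≤ G ∧ T.IsTree ∧
        (∀ v : V, ((G \ T).neighborSet v).ncard ≤ 2) ∧
        (∀ v w : V, (G \ T).Adj v w → ((G \ T).neighborSet v).ncard = 1 →
          ((G \ T).neighborSet w).ncard = 1) := by
  classical
  have h3' : ∀ v, dg G v = 3 := by
    intro v
    have h := h3 v
    rw [dg_eq_ncard, Set.ncard_eq_toFinset_card']
    rw [← SimpleGraph.card_neighborFinset_eq_degree] at h
    rw [← h]; congr 1
  -- maximal `C`
  let P : SimpleGraph V → Prop := fun C =>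
    C ≤ G ∧ (∀ v, dg C v = 0 ∨ dg C v = 2) ∧ (G \ C).Connected
  have hP0 : P ⊥ := by
    refine ⟨bot_le, fun v => Or.inl ?_, ?_⟩
    · rw [dg_eq_ncard]
      have : (⊥ : SimpleGraph V).neighborSet v = ∅ := by
        ext x; simp
      rw [this, Set.ncard_empty]
    · have : G \ (⊥ : SimpleGraph V) = G := by
        ext a b; simp
      rw [this]; exact hc
  obtain ⟨C, hC⟩ : ∃ C, Maximal P C := by
    have hfin : {C : SimpleGraph V | P C}.Finite := Set.toFinite _
    obtain ⟨C, hC⟩ := hfin.exists_maximal ⟨⊥, hP0⟩
    exact ⟨C, hC⟩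
  obtain ⟨⟨hCG, hCd, hHc⟩, hmax⟩ := hC
  have hdsum : ∀ v, dg (G \ C) v + dg C v = 3 := by
    intro v
    rw [dg_sdiff_add_f hCG v, h3' v]
  have hred : Reduced (G \ C) := by
    intro D hD hDne hDd hcon
    have hP : P (C ⊔ D) := by
      refine ⟨sup_le hCG (fun a b h => (hD h).1), ?_, ?_⟩
      · intro v
        have hun : (C ⊔ D).neighborSet v = C.neighborSet v ∪ D.neighborSet v := by
          ext x; simp
        rcases hDd v with h | ⟨h, h'⟩
        · have h0 : D.neighborSet v = ∅ := by
            rw [dg_eq_ncard] at h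
            exact (Set.ncard_eq_zero (Set.toFinite _)).mp h
          have : dg (C ⊔ D) v = dg C v := by
            rw [dg_eq_ncard, dg_eq_ncard, hun, h0, Set.union_empty]
          rw [this]; exact hCd v
        · right
          have h1 := hdsum v
          have hCv : dg C v = 0 := by omega
          have h0 : C.neighborSet v = ∅ := by
            rw [dg_eq_ncard] at hCv
            exact (Set.ncard_eq_zero (Set.toFinite _)).mp hCv
          rw [dg_eq_ncard, hun, h0, Set.empty_union, ← dg_eq_ncard]
          exact h
      · have : G \ (C ⊔ D) = (G \ C) \ D := by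
          rw [sdiff_sdiff]
        rw [this]; exact hcon
    have hle : C ⊔ D ≤ C := hmax hP le_sup_left
    apply hDne
    rw [eq_bot_iff]
    intro a b hab
    have h1 : C.Adj a b := hle (Or.inr hab)
    exact absurd h1 (hD hab).2
  obtain ⟨M, hMH, hM, hT⟩ := hR (G \ C) hHc (fun v => by have := hdsum v; omega) hred
  have hadj : ∀ v w, (G \ ((G \ C) \ M)).Adj v w ↔ C.Adj v w ∨ M.Adj v w := by
    intro v w
    simp only [SimpleGraph.sdiff_adj]
    constructor
    · rintro ⟨h1, h2⟩
      by_contra hcon
      push Not at hcon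
      exact h2 ⟨⟨h1, hcon.1⟩, hcon.2⟩
    · rintro (h | h)
      · exact ⟨hCG h, fun h' => h'.1.2 h⟩
      · have h' := (hMH h)
        exact ⟨h'.1, fun h'' => h''.2 h⟩
  have hnb : ∀ v, (G \ ((G \ C) \ M)).neighborSet v = C.neighborSet v ∪ M.neighborSet v := by
    intro v
    ext w
    simp only [SimpleGraph.mem_neighborSet, Set.mem_union]
    exact hadj v w
  have hsub : ∀ v, (M.neighborSet v).Subsingleton := by
    intro v a ha b hb
    exact hM v a b ha hb
  -- a `C`-vertex is not covered by `M`
  have hMC : ∀ v, dg C v = 2 → M.neighborSet v = ∅ := by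
    intro v hv
    rw [Set.eq_empty_iff_forall_notMem]
    intro w hw
    have hw' : M.Adj v w := hw
    have hJw := hMH hw'
    have hJ1 : dg (G \ C) v = 1 := by
      have := hdsum v
      omega
    rw [dg_eq_ncard] at hJ1
    obtain ⟨a, ha⟩ := Set.ncard_eq_one.mp hJ1
    have hwa : w = a := by
      have : w ∈ (G \ C).neighborSet v := hJw
      rw [ha] at this
      exact this
    have hvw : v ≠ w := hJw.ne
    obtain ⟨p⟩ := hT.1.preconnected v w
    cases p with
    | nil => exact hvw rfl
    | cons h q =>
      rename_i x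
      have hxa : x = a := by
        have : x ∈ (G \ C).neighborSet v := h.1
        rw [ha] at this
        exact this
      apply h.2
      rw [hxa, ← hwa]
      exact hw'
  refine ⟨(G \ C) \ M, fun a b h => h.1.1, hT, ?_, ?_⟩
  · intro v
    rw [hnb]
    rcases hCd v with h | h
    · have h0 : C.neighborSet v = ∅ := by
        rw [dg_eq_ncard] at h
        exact (Set.ncard_eq_zero (Set.toFinite _)).mp h
      rw [h0, Set.empty_union]
      have := (Set.ncard_le_one (Set.toFinite (M.neighborSet v))).mpr (fun a ha b hb => hsub v ha hb)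
      omega
    · rw [hMC v h, Set.union_empty]
      rw [dg_eq_ncard] at h
      omega
  · intro v w hvw h1
    have hFv : dg C v = 0 := by
      rcases hCd v with h | h
      · exact h
      · exfalso
        rw [hnb, hMC v h, Set.union_empty] at h1
        rw [dg_eq_ncard] at h
        omega
    have hFv0 : C.neighborSet v = ∅ := by
      rw [dg_eq_ncard] at hFv
      exact (Set.ncard_eq_zero (Set.toFinite _)).mp hFv
    have hMvw : M.Adj v w := by
      rcases (hadj v w).mp hvw with h | h
      · exfalso
        have : w ∈ C.neighborSet v := h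
        rw [hFv0] at this
        exact this
      · exact h
    have hFw : dg C w = 0 := by
      rcases hCd w with h | h
      · exact h
      · exfalso
        have h2 := hMC w h
        have : v ∈ M.neighborSet w := hMvw.symm
        rw [h2] at this
        exact this
    have hFw0 : C.neighborSet w = ∅ := by
      rw [dg_eq_ncard] at hFw
      exact (Set.ncard_eq_zero (Set.toFinite _)).mp hFw
    rw [hnb, hFw0, Set.empty_union, Set.ncard_eq_one]
    exact ⟨v, Set.eq_singleton_iff_unique_mem.mpr ⟨hMvw.symm, fun x hx => hsub w hx hMvw.symm⟩⟩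

theorem final (V : Type) [Fintype V] [DecidableEq V] (G : SimpleGraph V) [DecidableRel G.Adj]
    (h3 : G.IsRegularOfDegree 3) (hc : G.Connected) :
      ∃ T : SimpleGraph V, T ≤ G ∧ T.IsTree ∧
        (∀ v : V, ((G \ T).neighborSet v).ncard ≤ 2) ∧
        (∀ v w : V, (G \ T).Adj v w → ((G \ T).neighborSet v).ncard = 1 →
          ((G \ T).neighborSet w).ncard = 1) :=
  final_of V G (fun J hJc hJd hJr => theoremR J hJc hJd hJr) h3 hc

end Pool.Agent.ThreeDec
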