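import Pool.Agent.ThreeDec.Defs

set_option autoImplicit false

namespace Pool.Agent.ThreeDec

open Finset

universe u
variable {V : Type u} [Fintype V]

lemma comp_eq_of_mem {F : SimpleGraph V} {v w : V} (h : w ∈ comp F v) : comp F w = comp F v := by
  classical
  ext x
  rw [mem_comp] at h ⊢
  rw [mem_comp]
  exact ⟨fun hx => h.trans hx, fun hx => h.symm.trans hx⟩

/-- `F` restricted to the edges inside `C` -/
def inside (F : SimpleGraph V) (C : Finset V) : SimpleGraph V where
  Adj a b := F.Adj a b ∧ a ∈ C ∧ b ∈ C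
  symm := ⟨fun _ _ h => ⟨h.1.symm, h.2.2, h.2.1⟩⟩
  loopless := ⟨fun _ h => h.1.ne rfl⟩

/-- the charge of an `F`-closed set is even -/
lemma ch_even {F : SimpleGraph V} (C : Finset V) (hC : ∀ v ∈ C, ∀ w, F.Adj v w → w ∈ C) :
    Even (ch F C) := by
  classical
  have h1 : ∀ v ∈ C, dg F v = (inside F C).degree v := by
    intro v hv
    rw [← SimpleGraph.card_neighborFinset_eq_degree]
    unfold dg
    congr 1
    ext w
    rw [mem_nb, SimpleGraph.mem_neighborFinset]
    exact ⟨fun h => ⟨h, hv, hC v hv w h⟩, fun h => h.1⟩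
  have h2 : ∀ v, v ∉ C → (inside F C).degree v = 0 := by
    intro v hv
    rw [← SimpleGraph.card_neighborFinset_eq_degree, Finset.card_eq_zero]
    ext w
    rw [SimpleGraph.mem_neighborFinset]
    constructor
    · intro h
      exact absurd h.2.1 hv
    · intro h
      exact absurd h (Finset.notMem_empty w)
  have h3 : ∑ v ∈ C, dg F v = 2 * (inside F C).edgeFinset.card := by
    rw [← SimpleGraph.sum_degrees_eq_twice_card_edges, Finset.sum_congr rfl h1]
    exact Finset.sum_subset (Finset.subset_univ C) (fun v _ hv => h2 v hv)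
  have h4 : ch F C = 2 * (C.card : ℤ) - 2 * ((inside F C).edgeFinset.card : ℤ) := by
    unfold ch
    rw [Finset.sum_sub_distrib, Finset.sum_const, ← Nat.cast_sum, h3]
    push_cast
    ring
  rw [h4]
  exact ⟨(C.card : ℤ) - ((inside F C).edgeFinset.card : ℤ), by ring⟩

/-- the charge of a component is at most 2 -/
lemma ch_comp_le (F : SimpleGraph V) (v : V) : ch F (comp F v) ≤ 2 := by
  classical
  set C : Finset V := comp F v with hCdef
  have hcl : ∀ x ∈ C, ∀ w, F.Adj x w → w ∈ C := by
    intro x hx w hw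
    rw [hCdef, mem_comp] at hx ⊢
    exact hx.trans hw.reachable
  have hvC : v ∈ C := by rw [hCdef, mem_comp]
  let I : SimpleGraph C := F.induce (C : Set V)
  have hreach : ∀ (a b : V) (p : F.Walk a b) (ha : a ∈ C), ∃ hb : b ∈ C,
      I.Reachable ⟨a, ha⟩ ⟨b, hb⟩ := by
    intro a b p
    induction p with
    | nil => intro ha; exact ⟨ha, SimpleGraph.Reachable.refl _⟩
    | cons h p ih =>
      intro ha
      have hu := hcl _ ha _ h
      obtain ⟨hb, hr⟩ := ih hu
      refine ⟨hb, SimpleGraph.Reachable.trans ?_ hr⟩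
      exact SimpleGraph.Adj.reachable (show I.Adj _ _ from h)
  have hconn : I.Connected := by
    have : Nonempty C := ⟨⟨v, hvC⟩⟩
    refine ⟨fun a b => ?_⟩
    have h1 : ∀ b : C, I.Reachable ⟨v, hvC⟩ b := by
      intro b
      have hb : F.Reachable v b.1 := mem_comp.1 b.2
      obtain ⟨p⟩ := hb
      obtain ⟨hb', hr⟩ := hreach v b.1 p hvC
      exact hr
    exact (h1 a).symm.trans (h1 b)
  have h5 := hconn.card_vert_le_card_edgeSet_add_one
  have hdeg : ∀ x : C, I.degree x = dg F x.1 := by
    intro x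
    rw [← SimpleGraph.card_neighborFinset_eq_degree]
    unfold dg
    refine Finset.card_bij (fun y _ => y.1) ?_ ?_ ?_
    · intro y hy
      rw [SimpleGraph.mem_neighborFinset] at hy
      rw [mem_nb]
      exact hy
    · intro a _ b _ hab
      exact Subtype.ext hab
    · intro b hb
      rw [mem_nb] at hb
      refine ⟨⟨b, hcl x.1 x.2 b hb⟩, ?_, rfl⟩
      rw [SimpleGraph.mem_neighborFinset]
      exact hb
  have h6 : ∑ x ∈ C, dg F x = 2 * I.edgeFinset.card := by
    rw [← SimpleGraph.sum_degrees_eq_twice_card_edges, ← Finset.sum_coe_sort]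
    exact Finset.sum_congr rfl (fun x _ => (hdeg x).symm)
  have h7 : Nat.card I.edgeSet = I.edgeFinset.card := by
    rw [Nat.card_eq_fintype_card, SimpleGraph.edgeFinset_card]
  have h8 : Nat.card C = C.card := by
    rw [Nat.card_eq_fintype_card, Fintype.card_coe]
  have h9 : ch F C = 2 * (C.card : ℤ) - 2 * (I.edgeFinset.card : ℤ) := by
    unfold ch
    rw [Finset.sum_sub_distrib, Finset.sum_const, ← Nat.cast_sum, h6]
    push_cast
    ring
  rw [h9]
  rw [h7, h8] at h5
  omega

end Pool.Agent.ThreeDec
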