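import Pool.Agent.ThreeDec.Defs

set_option autoImplicit false

/-! (Q2) charge 2 and connected gives a tree; minimum degree two gives a cycle. -/

namespace Pool.Agent.ThreeDec

open Finset

universe u
variable {V : Type u} [Fintype V]

lemma isTree_of_ch {F : SimpleGraph V} (hF : F.Connected) (h : ch F univ = 2) : F.IsTree := by
  classical
  rw [SimpleGraph.isTree_iff_connected_and_card]
  refine ⟨hF, ?_⟩
  have hdeg : ∀ v, dg F v = F.degree v := by
    intro v
    have h1 : nb F v = F.neighborFinset v := by
      ext w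
      simp
    rw [dg, h1]
    rfl
  have hsum := F.sum_degrees_eq_twice_card_edges
  have hch : ch F univ = 2 * (Fintype.card V : ℤ) - ∑ v, (F.degree v : ℤ) := by
    unfold ch
    rw [Finset.sum_sub_distrib]
    simp only [hdeg]
    simp [Finset.card_univ]
    ring
  have hs2 : (∑ v, (F.degree v : ℤ)) = 2 * (F.edgeFinset.card : ℤ) := by
    exact_mod_cast hsum
  rw [hch, hs2] at h
  rw [Nat.card_eq_fintype_card, Nat.card_eq_fintype_card, ← SimpleGraph.edgeFinset_card]
  omega

open Classical in
/-- a graph all of whose vertices in the nonempty set `L` have at least 2 neighbours in `L` has a cycle in `L` -/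
lemma not_acyclic_of_min_deg (F : SimpleGraph V) (L : Finset V) (hne : L.Nonempty)
    (hdeg : ∀ v ∈ L, 2 ≤ ((nb F v).filter (fun w => w ∈ L)).card) :
    ¬ (F.induce (L : Set V)).IsAcyclic := by
  intro hac
  obtain ⟨v0, hv0⟩ := hne
  have : Nonempty ((L : Set V) : Type u) := ⟨⟨v0, hv0⟩⟩
  obtain ⟨T, hHT, -, hT⟩ :=
    (SimpleGraph.connected_top (V := ((L : Set V) : Type u))).exists_isTree_le_of_le_of_isAcyclic
      le_top hac
  -- degrees in the tree are at least two
  have key : ∀ x : ((L : Set V) : Type u), 2 ≤ T.degree x := by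
    intro x
    have hx : (x : V) ∈ L := x.2
    refine le_trans (hdeg x hx) ?_
    rw [← SimpleGraph.card_neighborFinset_eq_degree]
    refine Finset.card_le_card_of_injOn
      (fun w => if hw : w ∈ L then (⟨w, hw⟩ : ((L : Set V) : Type u)) else x) ?_ ?_
    · intro w hw
      have hw' := Finset.mem_filter.1 hw
      have hwL : w ∈ L := hw'.2
      have hadj : F.Adj x w := mem_nb.1 hw'.1
      simp only [hwL, dif_pos]
      rw [Finset.mem_coe, SimpleGraph.mem_neighborFinset]
      exact hHT (SimpleGraph.comap_adj.2 hadj)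
    · intro a ha b hb hab
      have ha' := (Finset.mem_filter.1 ha).2
      have hb' := (Finset.mem_filter.1 hb).2
      simp only [ha', hb', dif_pos] at hab
      exact congrArg (fun z : ((L : Set V) : Type u) => (z : V)) hab
  have : Nontrivial ((L : Set V) : Type u) := by
    have h2 := key ⟨v0, hv0⟩
    rw [← SimpleGraph.card_neighborFinset_eq_degree] at h2
    have h3 : (T.neighborFinset ⟨v0, hv0⟩).Nonempty := by
      rw [← Finset.card_pos]
      omega
    obtain ⟨y, hy⟩ := h3
    rw [SimpleGraph.mem_neighborFinset] at hy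
    exact ⟨⟨⟨v0, hv0⟩, y, hy.ne⟩⟩
  obtain ⟨x, hx⟩ := hT.exists_vert_degree_one_of_nontrivial
  have h2 := key x
  omega

end Pool.Agent.ThreeDec
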