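import Mathlib

set_option autoImplicit false

/-! Definitions for the 3-decomposition theorem (MP_34c651).  See the proof note. -/

namespace Pool.Agent.ThreeDec

open Finset

universe u
variable {V : Type u} [Fintype V]

open Classical in
/-- neighbours as a finset -/
noncomputable def nb (G : SimpleGraph V) (v : V) : Finset V := univ.filter (fun w => G.Adj v w)

/-- degree -/
noncomputable def dg (G : SimpleGraph V) (v : V) : ℕ := (nb G v).card

@[simp] lemma mem_nb {G : SimpleGraph V} {v w : V} : w ∈ nb G v ↔ G.Adj v w := by
  classical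
  simp [nb]

open Classical in
/-- the vertex set of the component of `v` -/
noncomputable def comp (G : SimpleGraph V) (v : V) : Finset V := univ.filter (fun w => G.Reachable v w)

@[simp] lemma mem_comp {G : SimpleGraph V} {v w : V} : w ∈ comp G v ↔ G.Reachable v w := by
  classical
  simp [comp]

/-- charge `sum (2 - deg)` of a vertex set -/
noncomputable def ch (G : SimpleGraph V) (C : Finset V) : ℤ := ∑ v ∈ C, ((2 : ℤ) - (dg G v : ℤ))

/-- `M` is a matching (as a graph of maximum degree one) -/
def IsMat (M : SimpleGraph V) : Prop := ∀ v a b, M.Adj v a → M.Adj v b → a = b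

/-- every edge lies on a cycle -/
def Bridgeless (W : SimpleGraph V) : Prop :=
  ∀ a b, W.Adj a b → (W \ SimpleGraph.fromEdgeSet {s(a, b)}).Reachable a b

open Classical in
/-- number of edges leaving `Q` -/
noncomputable def bd (W : SimpleGraph V) (Q : Finset V) : ℕ :=
  ∑ v ∈ Q, ((nb W v).filter (fun w => w ∉ Q)).card

/-- reduced: removing the edges of a nonempty 2-regular subgraph on vertices of degree 3 disconnects -/
def Reduced (W : SimpleGraph V) : Prop :=
  ∀ D : SimpleGraph V, D ≤ W → D ≠ ⊥ → (∀ v, dg D v = 0 ∨ (dg D v = 2 ∧ dg W v = 3)) →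
    ¬ (W \ D).Connected

/-- tree state with distinguished tree component of `x0` -/
structure State (W M : SimpleGraph V) (x0 : V) : Prop where
  le : M ≤ W
  mat : IsMat M
  comps : ∀ v, (∀ w ∈ comp (W \ M) v, dg (W \ M) w = 2) ∨ ch (W \ M) (comp (W \ M) v) = 2
  root : ch (W \ M) (comp (W \ M) x0) = 2

end Pool.Agent.ThreeDec
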