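import Pool.Agent.ThreeDec.Init
import Pool.Agent.ThreeDec.Charge

set_option autoImplicit false

namespace Pool.Agent.ThreeDec

open Finset

universe u
variable {V : Type u} [Fintype V]

/-- a component is closed under adjacency -/
lemma comp_closed_i2 {F : SimpleGraph V} (v : V) : ∀ x ∈ comp F v, ∀ w, F.Adj x w → w ∈ comp F v := by
  intro x hx w hw
  rw [mem_comp] at hx ⊢
  exact hx.trans hw.reachable

/-- degree after removing a matching, at a covered vertex -/
lemma dg_sdiff_covered_i2 {W M : SimpleGraph V} (hMW : M ≤ W) (hM : IsMat M) (v : V)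
    (hv : ∃ w, M.Adj v w) : dg (W \ M) v + 1 = dg W v := by
  classical
  obtain ⟨w, hw⟩ := hv
  have h1 : nb W v = insert w (nb (W \ M) v) := by
    ext x
    rw [mem_nb, mem_insert, mem_nb, SimpleGraph.sdiff_adj]
    constructor
    · intro hx
      by_cases hxM : M.Adj v x
      · left; exact hM v x w hxM hw
      · right; exact ⟨hx, hxM⟩
    · rintro (rfl | hx)
      · exact hMW hw
      · exact hx.1
  have h2 : w ∉ nb (W \ M) v := by
    rw [mem_nb, SimpleGraph.sdiff_adj]
    exact fun h => h.2 hw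
  unfold dg
  rw [h1, card_insert_of_notMem h2]

/-- degree after removing a matching, at an uncovered vertex -/
lemma dg_sdiff_uncovered_i2 {W M : SimpleGraph V} (v : V)
    (hv : ¬ ∃ w, M.Adj v w) : dg (W \ M) v = dg W v := by
  classical
  have h1 : nb W v = nb (W \ M) v := by
    ext x
    rw [mem_nb, mem_nb, SimpleGraph.sdiff_adj]
    exact ⟨fun hx => ⟨hx, fun h => hv ⟨x, h⟩⟩, fun h => h.1⟩
  unfold dg
  rw [h1]

/-- the matching of `initial` is a state -/
theorem initial_state (W : SimpleGraph V) (hc : W.Connected) (hb : Bridgeless W)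
    (hd : ∀ v, dg W v = 2 ∨ dg W v = 3) (s0 s1 : V) (h0 : dg W s0 = 2) (h1 : dg W s1 = 2)
    (hne : s0 ≠ s1) : ∃ M : SimpleGraph V, State W M s0 := by
  classical
  obtain ⟨M, hMW, hM, hcov⟩ := initial W hc hb hd s0 s1 h0 h1 hne
  have hdeg : ∀ v, dg (W \ M) v = 1 ∨ dg (W \ M) v = 2 := by
    intro v
    by_cases hv : ∃ w, M.Adj v w
    · have := dg_sdiff_covered_i2 hMW hM v hv
      rcases hd v with h | h <;> omega
    · have h3 := dg_sdiff_uncovered_i2 (W := W) v hv
      rcases hd v with h | h
      · omega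
      · exact absurd (hcov v (Or.inl h)) hv
  have hterm : ∀ v, (0 : ℤ) ≤ (2 : ℤ) - (dg (W \ M) v : ℤ) := by
    intro v
    rcases hdeg v with h | h <;> rw [h] <;> norm_num
  have hev : ∀ v, Even (ch (W \ M) (comp (W \ M) v)) := fun v => ch_even _ (comp_closed_i2 v)
  have hle : ∀ v, ch (W \ M) (comp (W \ M) v) ≤ 2 := fun v => ch_comp_le _ v
  have hnn : ∀ v, 0 ≤ ch (W \ M) (comp (W \ M) v) := fun v =>
    Finset.sum_nonneg (fun x _ => hterm x)
  have hroot : dg (W \ M) s0 = 1 := by
    have := dg_sdiff_covered_i2 hMW hM s0 (hcov s0 (Or.inr rfl))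
    omega
  refine ⟨M, hMW, hM, ?_, ?_⟩
  · intro v
    obtain ⟨k, hk⟩ := hev v
    have a1 := hle v
    have a2 := hnn v
    have hk2 : k = 0 ∨ k = 1 := by omega
    rcases hk2 with rfl | rfl
    · left
      have hz : ∑ x ∈ comp (W \ M) v, ((2 : ℤ) - (dg (W \ M) x : ℤ)) = 0 := by
        have : ch (W \ M) (comp (W \ M) v) = 0 := by rw [hk]; rfl
        exact this
      rw [Finset.sum_eq_zero_iff_of_nonneg (fun x _ => hterm x)] at hz
      intro w hw
      have := hz w hw
      omega
    · right
      rw [hk]; norm_num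
  · obtain ⟨k, hk⟩ := hev s0
    have a1 := hle s0
    have a2 : (1 : ℤ) ≤ ch (W \ M) (comp (W \ M) s0) := by
      have hs : s0 ∈ comp (W \ M) s0 := by
        rw [mem_comp]
      have := Finset.single_le_sum (f := fun x => (2 : ℤ) - (dg (W \ M) x : ℤ))
        (fun x _ => hterm x) hs
      simp only [hroot] at this
      unfold ch
      refine le_trans ?_ this
      norm_num
    omega

end Pool.Agent.ThreeDec
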